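import Pool.Agent.H54.Pisot.Count
import Pool.Agent.H48.RN.LpAct

/-!
# The charts of the tiles and the action of piecewise affine permutations
-/

set_option autoImplicit false

open Set

namespace Pool.Agent.H54.Pisot

/-- Piecewise affine permutations of `[0, ℓ)` with slopes the powers of `β` and with cut points and
translation parts in `A`. -/
def PW (A : Set ℝ) (β ℓ : ℝ) (g : Equiv.Perm (Set.Ico (0 : ℝ) ℓ)) : Prop :=
  ∃ s : Finset ℝ, (∀ u ∈ s, u ∈ A) ∧ ∀ x : Set.Ico (0 : ℝ) ℓ, ∃ a : ℤ, ∃ d ∈ A,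
    ∀ y : Set.Ico (0 : ℝ) ℓ, (∀ u ∈ s, u ≤ (y : ℝ) ↔ u ≤ (x : ℝ)) →
      (g y : ℝ) = β ^ a * (y : ℝ) + d

/-- The maps of the line. -/
def Mp : Type := ℝ → ℝ

open Classical in
/-- The extension of a permutation of `[0, ℓ)`. -/
noncomputable def ex {ℓ : ℝ} (g : Equiv.Perm (Set.Ico (0 : ℝ) ℓ)) : Equiv.Perm ℝ :=
  Equiv.Perm.ofSubtype (p := fun x => x ∈ Set.Ico (0 : ℝ) ℓ) g

theorem ex_one {ℓ : ℝ} : ex (1 : Equiv.Perm (Set.Ico (0 : ℝ) ℓ)) = 1 := by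
  unfold ex
  exact map_one _

theorem ex_mul {ℓ : ℝ} (g h : Equiv.Perm (Set.Ico (0 : ℝ) ℓ)) : ex (g * h) = ex g * ex h := by
  unfold ex
  exact map_mul _ g h

theorem ex_mem {ℓ : ℝ} (g : Equiv.Perm (Set.Ico (0 : ℝ) ℓ)) {x : ℝ} (hx : x ∈ Set.Ico (0 : ℝ) ℓ) :
    ex g x = (g ⟨x, hx⟩ : ℝ) := by
  unfold ex
  exact Equiv.Perm.ofSubtype_apply_of_mem _ hx

theorem ex_not {ℓ : ℝ} (g : Equiv.Perm (Set.Ico (0 : ℝ) ℓ)) {x : ℝ} (hx : x ∉ Set.Ico (0 : ℝ) ℓ) :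
    ex g x = x := by
  unfold ex
  exact Equiv.Perm.ofSubtype_apply_of_not_mem _ hx

theorem ex_neg {ℓ : ℝ} (g : Equiv.Perm (Set.Ico (0 : ℝ) ℓ)) : ex g (-1) = -1 :=
  ex_not g (fun h => by have := h.1; linarith)

noncomputable instance permAction (ℓ : ℝ) : MulAction (Equiv.Perm (Set.Ico (0 : ℝ) ℓ)) Mp where
  smul g F := fun t => ex g (F t)
  one_smul F := by
    funext t
    change ex 1 (F t) = F t
    rw [ex_one]
    rfl
  mul_smul g h F := by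
    funext t
    change ex (g * h) (F t) = ex g (ex h (F t))
    rw [ex_mul]
    rfl

theorem smul_app {ℓ : ℝ} (g : Equiv.Perm (Set.Ico (0 : ℝ) ℓ)) (F : Mp) (t : ℝ) :
    (g • F) t = ex g (F t) := rfl

namespace Sys

variable (P : Sys) (ℓ : ℝ)

/-- The chart of a tile. -/
noncomputable def ch (k : ℤ) (c c' : ℝ) : Mp := fun t =>
  if 0 ≤ t ∧ t < P.β ^ k * (c' - c) then c + P.β ^ (-k) * t else -1

variable {P ℓ}

theorem ch_in {k : ℤ} {c c' t : ℝ} (h : 0 ≤ t ∧ t < P.β ^ k * (c' - c)) :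
    P.ch k c c' t = c + P.β ^ (-k) * t := if_pos h

theorem ch_out {k : ℤ} {c c' t : ℝ} (h : ¬ (0 ≤ t ∧ t < P.β ^ k * (c' - c))) :
    P.ch k c c' t = -1 := if_neg h

theorem ch_mem {k : ℤ} {c c' t : ℝ} (h : 0 ≤ t ∧ t < P.β ^ k * (c' - c)) :
    c ≤ c + P.β ^ (-k) * t ∧ c + P.β ^ (-k) * t < c' := by
  have hβ : 0 < P.β ^ (-k) := zpow_pos P.β0 _
  constructor
  · have := mul_nonneg hβ.le h.1
    linarith
  · have h1 := mul_lt_mul_of_pos_left h.2 hβ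
    rw [← mul_assoc, ← zpow_add₀ P.β0.ne', neg_add_cancel, zpow_zero, one_mul] at h1
    linarith

theorem ch_point {k : ℤ} {c c' y : ℝ} (h1 : c ≤ y) (h2 : y < c') :
    P.ch k c c' (P.β ^ k * (y - c)) = y := by
  have hβ : 0 < P.β ^ k := zpow_pos P.β0 _
  rw [ch_in ⟨mul_nonneg hβ.le (by linarith), mul_lt_mul_of_pos_left (by linarith) hβ⟩,
    ← mul_assoc, ← zpow_add₀ P.β0.ne', neg_add_cancel, zpow_zero]
  ring

theorem ch_dom {k : ℤ} {c c' t : ℝ} (h0 : 0 ≤ c) :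
    P.ch k c c' t ≠ -1 ↔ (0 ≤ t ∧ t < P.β ^ k * (c' - c)) := by
  constructor
  · intro h
    by_contra hne
    exact h (ch_out hne)
  · intro h
    rw [ch_in h]
    have := (ch_mem h).1
    linarith

theorem ch_len {k k' : ℤ} {c c' e e' : ℝ} (h0 : 0 ≤ c) (h1 : c < c') (h0' : 0 ≤ e) (h1' : e < e')
    (h : ∀ t, P.ch k c c' t ≠ -1 ↔ P.ch k' e e' t ≠ -1) :
    P.β ^ k * (c' - c) = P.β ^ k' * (e' - e) := by
  have hβ : 0 < P.β ^ k := zpow_pos P.β0 _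
  have hβ' : 0 < P.β ^ k' := zpow_pos P.β0 _
  have p1 : 0 < P.β ^ k * (c' - c) := mul_pos hβ (by linarith)
  have p2 : 0 < P.β ^ k' * (e' - e) := mul_pos hβ' (by linarith)
  refine le_antisymm ?_ ?_
  · by_contra hlt
    push Not at hlt
    have h2 := (h (P.β ^ k' * (e' - e))).1 ((ch_dom h0).2 ⟨p2.le, hlt⟩)
    exact lt_irrefl _ ((ch_dom h0').1 h2).2
  · by_contra hlt
    push Not at hlt
    have h2 := (h (P.β ^ k * (c' - c))).2 ((ch_dom h0').2 ⟨p1.le, hlt⟩)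
    exact lt_irrefl _ ((ch_dom h0).1 h2).2

theorem zpow_inj {k k' : ℤ} (h : P.β ^ k = P.β ^ k') : k = k' :=
  zpow_right_injective₀ P.β0 P.β1.ne' h

theorem ch_inj {k k' : ℤ} {c c' e e' : ℝ} (h0 : 0 ≤ c) (h1 : c < c') (h0' : 0 ≤ e) (h1' : e < e')
    (h : P.ch k c c' = P.ch k' e e') : k = k' ∧ c = e ∧ c' = e' := by
  have hβ : 0 < P.β ^ k := zpow_pos P.β0 _
  have hl := ch_len h0 h1 h0' h1' (fun t => by rw [h])
  have p1 : 0 < P.β ^ k * (c' - c) := mul_pos hβ (by linarith)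
  have e0 := congrFun h 0
  rw [ch_in ⟨le_rfl, p1⟩, ch_in ⟨le_rfl, hl ▸ p1⟩, mul_zero, mul_zero, add_zero, add_zero] at e0
  have e1 := congrFun h (P.β ^ k * (c' - c) / 2)
  rw [ch_in ⟨by linarith, by linarith⟩, ch_in ⟨by linarith, by rw [← hl]; linarith⟩, e0] at e1
  have e2 : P.β ^ (-k) = P.β ^ (-k') := by
    have e3 := add_left_cancel e1
    rw [e0] at p1
    exact mul_right_cancel₀ (half_pos p1).ne' e3
  have e4 : k = k' := neg_injective (zpow_inj e2)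
  subst e4
  refine ⟨rfl, e0, ?_⟩
  have e5 := mul_left_cancel₀ hβ.ne' hl
  rw [e0] at e5
  linarith

variable (P ℓ) in
open Classical in
/-- The formal function. -/
noncomputable def SS (F : Mp) : ℝ :=
  if h : ∃ q : ℤ × ℝ × ℝ, P.Adm ℓ q.1 q.2.1 q.2.2 ∧ F = P.ch q.1 q.2.1 q.2.2 then
    P.val ℓ h.choose.1 h.choose.2.1 h.choose.2.2 else 0

theorem SS_ch {k : ℤ} {c c' : ℝ} (h : P.Adm ℓ k c c') :
    P.SS ℓ (P.ch k c c') = P.val ℓ k c c' := by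
  have hex : ∃ q : ℤ × ℝ × ℝ, P.Adm ℓ q.1 q.2.1 q.2.2 ∧ P.ch k c c' = P.ch q.1 q.2.1 q.2.2 :=
    ⟨(k, c, c'), h, rfl⟩
  unfold SS
  rw [dif_pos hex]
  obtain ⟨a1, a2⟩ := hex.choose_spec
  obtain ⟨b1, b2, b3⟩ := ch_inj h.2.2.2.1 h.2.2.2.2.1 a1.2.2.2.1 a1.2.2.2.2.1 a2
  rw [← b1, ← b2, ← b3]

theorem SS_ne {F : Mp} (h : P.SS ℓ F ≠ 0) :
    ∃ (k : ℕ) (c c' : ℝ), F = P.ch k c c' ∧ P.val ℓ k c c' ≠ 0 := by
  unfold SS at h
  split_ifs at h with hex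
  · obtain ⟨a1, a2⟩ := hex.choose_spec
    have hk := a1.1
    refine ⟨hex.choose.1.toNat, hex.choose.2.1, hex.choose.2.2, ?_, ?_⟩
    · rw [Int.toNat_of_nonneg hk]
      exact a2
    · rw [Int.toNat_of_nonneg hk]
      exact h
  · exact absurd rfl h

theorem SS_nonneg (F : Mp) : 0 ≤ P.SS ℓ F := by
  unfold SS
  split_ifs
  · exact val_nonneg _ _ _
  · exact le_rfl

theorem SS_le_one (hℓA : ℓ ∈ P.A) (F : Mp) : P.SS ℓ F ≤ 1 := by
  unfold SS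
  split_ifs
  · exact val_le_one _ _ _ hℓA
  · exact zero_le_one

/-- Piecewise affine maps have finitely many pieces. -/
theorem pieces {g : Equiv.Perm (Set.Ico (0 : ℝ) ℓ)} (hg : PW (P.A : Set ℝ) P.β ℓ g) :
    ∃ (s : Finset ℝ) (D : Finset (ℤ × ℝ)), (∀ u ∈ s, u ∈ P.A) ∧ (∀ q ∈ D, q.2 ∈ P.A) ∧
      ∀ c c' : ℝ, 0 ≤ c → c < c' → c' ≤ ℓ → (∀ u ∈ s, ¬ (c < u ∧ u < c')) →
        ∃ q ∈ D, ∀ y, c ≤ y → y < c' → ex g y = P.β ^ q.1 * y + q.2 := by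
  classical
  obtain ⟨s, hs, hx⟩ := hg
  choose a d hd hy using hx
  -- a representative of each class
  have hrep : ∀ t : Finset ℝ, ∃ q : ℤ × ℝ, q.2 ∈ P.A ∧
      ((∃ x : Set.Ico (0 : ℝ) ℓ, s.filter (fun u => u ≤ (x : ℝ)) = t) →
        ∃ x : Set.Ico (0 : ℝ) ℓ, s.filter (fun u => u ≤ (x : ℝ)) = t ∧ q = (a x, d x)) := by
    intro t
    by_cases h : ∃ x : Set.Ico (0 : ℝ) ℓ, s.filter (fun u => u ≤ (x : ℝ)) = t
    · obtain ⟨x, hx⟩ := h
      exact ⟨(a x, d x), hd x, fun _ => ⟨x, hx, rfl⟩⟩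
    · exact ⟨(0, 0), P.A.zero_mem, fun h' => absurd h' h⟩
  choose r hr1 hr2 using hrep
  refine ⟨s, s.powerset.image r, hs, ?_, ?_⟩
  · intro q hq
    obtain ⟨t, -, rfl⟩ := Finset.mem_image.1 hq
    exact hr1 t
  · intro c c' h0 h1 h2 hno
    have hc : c ∈ Set.Ico (0 : ℝ) ℓ := ⟨h0, h1.trans_le h2⟩
    obtain ⟨x, hx, hxr⟩ := hr2 (s.filter fun u => u ≤ c) ⟨⟨c, hc⟩, rfl⟩
    refine ⟨r (s.filter fun u => u ≤ c), Finset.mem_image_of_mem _
      (Finset.mem_powerset.2 (Finset.filter_subset _ _)), ?_⟩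
    intro y hy1 hy2
    have hyI : y ∈ Set.Ico (0 : ℝ) ℓ := ⟨h0.trans hy1, hy2.trans_le h2⟩
    rw [ex_mem g hyI, hxr]
    refine hy x ⟨y, hyI⟩ ?_
    intro u hu
    have e1 : u ≤ (x : ℝ) ↔ u ≤ c := by
      have := Finset.ext_iff.1 hx u
      simp only [Finset.mem_filter, hu, true_and] at this
      exact this
    rw [e1]
    constructor
    · intro h3
      by_contra h4
      push Not at h4
      exact hno u hu ⟨h4, lt_of_le_of_lt h3 hy2⟩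
    · intro h3
      exact h3.trans hy1

/-- The image of an affine tile is a tile. -/
theorem smul_ch {g : Equiv.Perm (Set.Ico (0 : ℝ) ℓ)} {k a : ℤ} {c c' d : ℝ}
    (h : ∀ y, c ≤ y → y < c' → ex g y = P.β ^ a * y + d) :
    g • P.ch k c c' = P.ch (k - a) (P.β ^ a * c + d) (P.β ^ a * c' + d) := by
  funext t
  rw [smul_app]
  have e : P.β ^ (k - a) * (P.β ^ a * c' + d - (P.β ^ a * c + d)) = P.β ^ k * (c' - c) := by
    have e1 : P.β ^ k = P.β ^ (k - a) * P.β ^ a := by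
      rw [← zpow_add₀ P.β0.ne', sub_add_cancel]
    rw [e1]
    ring
  by_cases ht : 0 ≤ t ∧ t < P.β ^ k * (c' - c)
  · have hm := ch_mem ht
    rw [ch_in ht, h _ hm.1 hm.2, ch_in (by rw [e]; exact ht)]
    have e1 : P.β ^ (-(k - a)) = P.β ^ a * P.β ^ (-k) := by
      rw [← zpow_add₀ P.β0.ne']
      congr 1
      ring
    rw [e1]
    ring
  · rw [ch_out ht, ch_out (by rw [e]; exact ht)]
    exact ex_neg g

theorem ex_range (g : Equiv.Perm (Set.Ico (0 : ℝ) ℓ)) {y : ℝ} (h0 : 0 ≤ y) (h1 : y < ℓ) :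
    0 ≤ ex g y ∧ ex g y < ℓ := by
  rw [ex_mem g ⟨h0, h1⟩]
  exact (g ⟨y, ⟨h0, h1⟩⟩).2

/-- The image of an admissible tile is admissible. -/
theorem adm_image {g : Equiv.Perm (Set.Ico (0 : ℝ) ℓ)} {k a : ℤ} {c c' d : ℝ}
    (hadm : P.Adm ℓ k c c') (hd : d ∈ P.A) (hak : a ≤ k)
    (h : ∀ y, c ≤ y → y < c' → ex g y = P.β ^ a * y + d) :
    P.Adm ℓ (k - a) (P.β ^ a * c + d) (P.β ^ a * c' + d) := by
  obtain ⟨h0, h1, h2, h3, h4, h5⟩ := hadm
  have ha : 0 < P.β ^ a := zpow_pos P.β0 _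
  refine ⟨by linarith, P.A.add_mem (P.zpowA _ h1) hd, P.A.add_mem (P.zpowA _ h2) hd, ?_, ?_, ?_⟩
  · rw [← h c le_rfl h4]
    exact (ex_range g h3 (h4.trans_le h5)).1
  · have := mul_lt_mul_of_pos_left h4 ha
    linarith
  · refine le_of_forall_lt_imp_le_of_dense ?_
    intro z hz
    by_contra hlt
    push Not at hlt
    -- the point of the tile mapped to the maximum of z and the left end point
    obtain ⟨w, hw⟩ : ∃ w, w = max c (P.β ^ (-a) * (z - d)) := ⟨_, rfl⟩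
    have e1 : P.β ^ a * (P.β ^ (-a) * (z - d)) = z - d := by
      rw [← mul_assoc, ← zpow_add₀ P.β0.ne', add_neg_cancel, zpow_zero, one_mul]
    have hw1 : c ≤ w := by rw [hw]; exact le_max_left _ _
    have hw2 : w < c' := by
      rw [hw]
      refine max_lt h4 ?_
      refine lt_of_mul_lt_mul_left (a := P.β ^ a) ?_ ha.le
      rw [e1]
      linarith
    have hw3 : z ≤ P.β ^ a * w + d := by
      have : P.β ^ (-a) * (z - d) ≤ w := by rw [hw]; exact le_max_right _ _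
      have := mul_le_mul_of_nonneg_left this ha.le
      rw [e1] at this
      linarith
    have h6 := (ex_range g (h3.trans hw1) (hw2.trans_le h5)).2
    rw [h w hw1 hw2] at h6
    linarith

end Sys

end Pool.Agent.H54.Pisot
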