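import Mathlib

/-!
# Cut-and-project systems on the line with a Pisot scaling

`A` is a subgroup of the line, stable under multiplication by `β` and `β⁻¹`, with a seminorm `N`
(the size in the contracting directions) such that `N (β c) ≤ ρ N c` and such that bounded parts of
`A` with bounded `N` are finite.
-/

set_option autoImplicit false

open Set

namespace Pool.Agent.H54.Pisot

/-- The data of a scaling system. -/
structure Sys where
  A : AddSubgroup ℝ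
  N : ℝ → ℝ
  β : ℝ
  ρ : ℝ
  β1 : 1 < β
  ρ0 : 0 < ρ
  ρ1 : ρ < 1
  mulA : ∀ c ∈ A, β * c ∈ A
  divA : ∀ c ∈ A, β⁻¹ * c ∈ A
  Nn : ∀ c ∈ A, 0 ≤ N c
  Nneg : ∀ c ∈ A, N (-c) = N c
  Nadd : ∀ c ∈ A, ∀ d ∈ A, N (c + d) ≤ N c + N d
  Nβ : ∀ c ∈ A, N (β * c) ≤ ρ * N c
  fin : ∀ R : ℝ, {c : ℝ | c ∈ A ∧ |c| ≤ R ∧ N c ≤ R}.Finite

namespace Sys

variable (P : Sys)

theorem β0 : 0 < P.β := by
  have := P.β1
  linarith

theorem powA (n : ℕ) {c : ℝ} (hc : c ∈ P.A) : P.β ^ n * c ∈ P.A := by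
  induction n with
  | zero => simpa using hc
  | succ n ih =>
    rw [pow_succ', mul_assoc]
    exact P.mulA _ ih

theorem powA' (n : ℕ) {c : ℝ} (hc : c ∈ P.A) : (P.β⁻¹) ^ n * c ∈ P.A := by
  induction n with
  | zero => simpa using hc
  | succ n ih =>
    rw [pow_succ', mul_assoc]
    exact P.divA _ ih

theorem zpowA (n : ℤ) {c : ℝ} (hc : c ∈ P.A) : P.β ^ n * c ∈ P.A := by
  obtain ⟨m, rfl | rfl⟩ := n.eq_nat_or_neg
  · rw [zpow_natCast]
    exact P.powA m hc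
  · rw [zpow_neg, zpow_natCast, ← inv_pow]
    exact P.powA' m hc

theorem N0 : P.N 0 = 0 := by
  have h1 := P.Nβ 0 P.A.zero_mem
  rw [mul_zero] at h1
  have h2 := P.Nn 0 P.A.zero_mem
  have h3 := P.ρ1
  nlinarith

theorem Npow (n : ℕ) {c : ℝ} (hc : c ∈ P.A) : P.N (P.β ^ n * c) ≤ P.ρ ^ n * P.N c := by
  induction n with
  | zero => simp
  | succ n ih =>
    rw [pow_succ', mul_assoc, pow_succ', mul_assoc]
    exact (P.Nβ _ (P.powA n hc)).trans (mul_le_mul_of_nonneg_left ih P.ρ0.le)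

theorem Npow_le (n : ℕ) {c : ℝ} (hc : c ∈ P.A) : P.N (P.β ^ n * c) ≤ P.N c := by
  refine (P.Npow n hc).trans ?_
  have h1 : P.ρ ^ n ≤ 1 := pow_le_one₀ P.ρ0.le P.ρ1.le
  calc P.ρ ^ n * P.N c ≤ 1 * P.N c := mul_le_mul_of_nonneg_right h1 (P.Nn c hc)
    _ = P.N c := one_mul _

/-- The seminorm is Lipschitz. -/
theorem Nlip {c d : ℝ} (hc : c ∈ P.A) (hd : d ∈ P.A) : |P.N (c + d) - P.N c| ≤ P.N d := by
  rw [abs_le]
  constructor
  · have h1 := P.Nadd (c + d) (P.A.add_mem hc hd) (-d) (P.A.neg_mem hd)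
    rw [add_neg_cancel_right, P.Nneg d hd] at h1
    linarith
  · have h1 := P.Nadd c hc d hd
    linarith

theorem Nsub {c d : ℝ} (hc : c ∈ P.A) (hd : d ∈ P.A) : P.N (c - d) ≤ P.N c + P.N d := by
  rw [sub_eq_add_neg, ← P.Nneg d hd]
  exact P.Nadd c hc _ (P.A.neg_mem hd)

/-- Bounded parts, general form. -/
theorem fin' (a b K : ℝ) : {c : ℝ | c ∈ P.A ∧ a ≤ c ∧ c ≤ b ∧ P.N c ≤ K}.Finite := by
  refine (P.fin (max (max |a| |b|) K)).subset ?_
  rintro c ⟨h1, h2, h3, h4⟩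
  refine ⟨h1, ?_, h4.trans (le_max_right _ _)⟩
  refine le_trans ?_ (le_max_left _ _)
  rw [abs_le]
  constructor
  · have h5 := neg_abs_le a
    have h6 := le_max_left |a| |b|
    linarith
  · exact (h3.trans (le_abs_self b)).trans (le_max_right _ _)

/-- The number of points of size at most `K` in an interval of length at most `L` is bounded. -/
theorem card_local (L K : ℝ) : ∃ C : ℕ, ∀ s : Finset ℝ, (∀ z ∈ s, z ∈ P.A ∧ P.N z ≤ K) →
    (∀ z ∈ s, ∀ w ∈ s, |z - w| ≤ L) → s.card ≤ C := by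
  classical
  refine ⟨(P.fin (max L (2 * K))).toFinset.card, fun s hs hd => ?_⟩
  rcases s.eq_empty_or_nonempty with rfl | ⟨z0, hz0⟩
  · simp
  · refine Finset.card_le_card_of_injOn (fun z => z - z0) ?_ ?_
    · intro z hz
      have hz' := Finset.mem_coe.1 hz
      rw [Finset.mem_coe, Set.Finite.mem_toFinset]
      refine ⟨P.A.sub_mem (hs z hz').1 (hs z0 hz0).1, (hd z hz' z0 hz0).trans (le_max_left _ _), ?_⟩
      refine (P.Nsub (hs z hz').1 (hs z0 hz0).1).trans (le_trans ?_ (le_max_right _ _))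
      have h1 := (hs z hz').2
      have h2 := (hs z0 hz0).2
      linarith
    · intro z _ w _ h
      simpa using h

/-- The points of bounded size are relatively dense. -/
theorem dense {ℓ : ℝ} (hℓ : 0 < ℓ) (hℓA : ℓ ∈ P.A) : ∀ y : ℝ, 0 ≤ y →
    ∃ z ∈ P.A, 0 ≤ z ∧ y - ℓ < z ∧ z ≤ y ∧ P.N z ≤ ⌈P.β⌉₊ * P.N ℓ / (1 - P.ρ) := by
  have hρ : 0 < 1 - P.ρ := by
    have := P.ρ1
    linarith
  have hNl := P.Nn ℓ hℓA
  have hK0 : 0 ≤ ⌈P.β⌉₊ * P.N ℓ / (1 - P.ρ) := by positivity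
  have hnat : ∀ a : ℕ, (a : ℝ) * ℓ ∈ P.A := fun a => by
    have := P.A.nsmul_mem hℓA a
    rwa [nsmul_eq_mul] at this
  have hNnat : ∀ a : ℕ, P.N ((a : ℝ) * ℓ) ≤ a * P.N ℓ := by
    intro a
    induction a with
    | zero => simp [P.N0]
    | succ a ih =>
      push_cast
      rw [add_mul, one_mul, add_mul, one_mul]
      exact (P.Nadd _ (hnat a) _ hℓA).trans (by linarith)
  have key : ∀ (k : ℕ) (y : ℝ), 0 ≤ y → y < P.β ^ k * ℓ →
      ∃ z ∈ P.A, 0 ≤ z ∧ y - ℓ < z ∧ z ≤ y ∧ P.N z ≤ ⌈P.β⌉₊ * P.N ℓ / (1 - P.ρ) := by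
    intro k
    induction k with
    | zero =>
      intro y h0 h1
      rw [pow_zero, one_mul] at h1
      exact ⟨0, P.A.zero_mem, le_rfl, by linarith, h0, by rw [P.N0]; exact hK0⟩
    | succ k ih =>
      intro y h0 h1
      have hβ := P.β0
      have h2 : y / P.β < P.β ^ k * ℓ := by
        rw [div_lt_iff₀ hβ]
        calc y < P.β ^ (k + 1) * ℓ := h1
          _ = P.β ^ k * ℓ * P.β := by ring
      obtain ⟨z, hzA, hz0, hz1, hz2, hz3⟩ := ih (y / P.β) (by positivity) h2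
      have e1 : P.β * (y / P.β) = y := by field_simp
      have hr0 : 0 ≤ y - P.β * z := by
        have := mul_le_mul_of_nonneg_left hz2 hβ.le
        rw [e1] at this
        linarith
      have hr1 : y - P.β * z < P.β * ℓ := by
        have := mul_lt_mul_of_pos_left hz1 hβ
        rw [mul_sub, e1] at this
        linarith
      obtain ⟨a, ha⟩ : ∃ a : ℕ, a = ⌊(y - P.β * z) / ℓ⌋₊ := ⟨_, rfl⟩
      have ha1 : (a : ℝ) ≤ (y - P.β * z) / ℓ := by
        rw [ha]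
        exact Nat.floor_le (by positivity)
      have ha2 : (y - P.β * z) / ℓ < a + 1 := by
        rw [ha]
        exact Nat.lt_floor_add_one _
      rw [le_div_iff₀ hℓ] at ha1
      rw [div_lt_iff₀ hℓ] at ha2
      have ha3 : (a : ℝ) ≤ ⌈P.β⌉₊ := by
        have h3 : (a : ℝ) * ℓ < P.β * ℓ := by linarith
        have h4 : (a : ℝ) < P.β := lt_of_mul_lt_mul_right h3 hℓ.le
        exact h4.le.trans (Nat.le_ceil _)
      refine ⟨P.β * z + a * ℓ, P.A.add_mem (P.mulA z hzA) (hnat a), by positivity, by linarith,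
        by linarith, ?_⟩
      calc P.N (P.β * z + a * ℓ) ≤ P.N (P.β * z) + P.N (a * ℓ) :=
            P.Nadd _ (P.mulA z hzA) _ (hnat a)
        _ ≤ P.ρ * P.N z + a * P.N ℓ := add_le_add (P.Nβ z hzA) (hNnat a)
        _ ≤ P.ρ * (⌈P.β⌉₊ * P.N ℓ / (1 - P.ρ)) + ⌈P.β⌉₊ * P.N ℓ :=
            add_le_add (mul_le_mul_of_nonneg_left hz3 P.ρ0.le)
              (mul_le_mul_of_nonneg_right ha3 hNl)
        _ = ⌈P.β⌉₊ * P.N ℓ / (1 - P.ρ) := by
            field_simp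
            ring
  intro y hy
  obtain ⟨k, hk⟩ := pow_unbounded_of_one_lt (y / ℓ) P.β1
  rw [div_lt_iff₀ hℓ] at hk
  exact key k y hy hk

end Sys

end Pool.Agent.H54.Pisot
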