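import Pool.Agent.H54.Pisot.Tile

/-!
# The number of tiles and the existence of heavy tiles
-/

set_option autoImplicit false

open Set

namespace Pool.Agent.H54.Pisot

namespace Sys

variable {P : Sys} {ℓ : ℝ}

/-- There are at most `C β^k` tiles at level `k`. -/
theorem count (hℓ : 0 < ℓ) (hℓA : ℓ ∈ P.A) : ∃ C : ℝ, 0 < C ∧ ∀ (k : ℕ) (s : Finset (ℝ × ℝ)),
    (∀ q ∈ s, P.val ℓ k q.1 q.2 ≠ 0) → (s.card : ℝ) ≤ C * P.β ^ k := by
  classical
  obtain ⟨C0, h0⟩ := P.card_local ℓ (P.K1 ℓ + 1)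
  obtain ⟨C1, h1⟩ := P.card_local 1 (P.K1 ℓ + 1)
  refine ⟨(C0 + 1) * ((C1 + 1) * (ℓ + 1)), by positivity, fun k s hs => ?_⟩
  have hβ : 0 < P.β ^ k := pow_pos P.β0 k
  have hβ1 : 1 ≤ P.β ^ k := one_le_pow₀ P.β1.le
  have hz : ∀ q ∈ s, P.β ^ k * q.1 ∈ P.A ∧ P.N (P.β ^ k * q.1) ≤ P.K1 ℓ + 1 ∧
      P.β ^ k * q.2 ∈ P.A ∧ P.N (P.β ^ k * q.2) ≤ P.K1 ℓ + 1 ∧ 0 ≤ P.β ^ k * q.1 ∧
      P.β ^ k * q.1 ≤ P.β ^ k * ℓ ∧ P.β ^ k * q.1 < P.β ^ k * q.2 ∧
      P.β ^ k * q.2 ≤ P.β ^ k * q.1 + ℓ := by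
    intro q hq
    have hv := hs q hq
    obtain ⟨-, a1, a2, a3, a4, a5⟩ := val_adm hv
    obtain ⟨b1, b2⟩ := val_end hℓA hv
    have b3 := val_length hℓ hℓA hv
    rw [zpow_natCast] at b1 b2 b3
    refine ⟨P.powA k a1, b1, P.powA k a2, b2, by positivity,
      mul_le_mul_of_nonneg_left (a4.le.trans a5) hβ.le, mul_lt_mul_of_pos_left a4 hβ, ?_⟩
    linarith
  have c1 : s.card ≤ C0 * (s.image fun q => P.β ^ k * q.1).card := by
    refine Finset.card_le_mul_card_image _ _ fun z _ => ?_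
    have e : ((s.filter fun q => P.β ^ k * q.1 = z).image fun q => P.β ^ k * q.2).card =
        (s.filter fun q => P.β ^ k * q.1 = z).card := by
      refine Finset.card_image_of_injOn ?_
      intro q hq r hr h
      rw [Finset.mem_coe, Finset.mem_filter] at hq hr
      have e1 : P.β ^ k * q.1 = P.β ^ k * r.1 := by rw [hq.2, hr.2]
      have e2 : P.β ^ k * q.2 = P.β ^ k * r.2 := h
      exact Prod.ext (mul_left_cancel₀ hβ.ne' e1) (mul_left_cancel₀ hβ.ne' e2)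
    rw [← e]
    refine h0 _ ?_ ?_
    · intro w hw
      obtain ⟨q, hq, rfl⟩ := Finset.mem_image.1 hw
      have := hz q (Finset.mem_filter.1 hq).1
      exact ⟨this.2.2.1, this.2.2.2.1⟩
    · intro w hw w' hw'
      obtain ⟨q, hq, rfl⟩ := Finset.mem_image.1 hw
      obtain ⟨r, hr, rfl⟩ := Finset.mem_image.1 hw'
      rw [Finset.mem_filter] at hq hr
      have a := hz q hq.1
      have b := hz r hr.1
      rw [hq.2] at a
      rw [hr.2] at b
      rw [abs_le]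
      constructor <;> linarith [a.2.2.2.2.2.2.1, a.2.2.2.2.2.2.2, b.2.2.2.2.2.2.1,
        b.2.2.2.2.2.2.2]
  have c2 : (s.image fun q => P.β ^ k * q.1).card ≤
      C1 * ((s.image fun q => P.β ^ k * q.1).image fun z => ⌊z⌋₊).card := by
    refine Finset.card_le_mul_card_image _ _ fun n _ => ?_
    refine h1 _ ?_ ?_
    · intro z hz'
      obtain ⟨q, hq, rfl⟩ := Finset.mem_image.1 (Finset.mem_filter.1 hz').1
      have := hz q hq
      exact ⟨this.1, this.2.1⟩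
    · intro z hz' w hw'
      obtain ⟨q, hq, hq'⟩ := Finset.mem_image.1 (Finset.mem_filter.1 hz').1
      obtain ⟨r, hr, hr'⟩ := Finset.mem_image.1 (Finset.mem_filter.1 hw').1
      have z0 : 0 ≤ z := by rw [← hq']; exact (hz q hq).2.2.2.2.1
      have w0 : 0 ≤ w := by rw [← hr']; exact (hz r hr).2.2.2.2.1
      have z1 := (Finset.mem_filter.1 hz').2
      have w1 := (Finset.mem_filter.1 hw').2
      have z2 := Nat.floor_le z0
      have z3 := Nat.lt_floor_add_one z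
      have w2 := Nat.floor_le w0
      have w3 := Nat.lt_floor_add_one w
      have z1' : ⌊z⌋₊ = n := z1
      have w1' : ⌊w⌋₊ = n := w1
      rw [z1'] at z2 z3
      rw [w1'] at w2 w3
      rw [abs_le]
      constructor <;> linarith
  have c3 : ((s.image fun q => P.β ^ k * q.1).image fun z => ⌊z⌋₊).card ≤
      ⌊P.β ^ k * ℓ⌋₊ + 1 := by
    have hsub : ((s.image fun q => P.β ^ k * q.1).image fun z => ⌊z⌋₊) ⊆
        Finset.range (⌊P.β ^ k * ℓ⌋₊ + 1) := by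
      intro n hn
      obtain ⟨z, hz', rfl⟩ := Finset.mem_image.1 hn
      obtain ⟨q, hq, rfl⟩ := Finset.mem_image.1 hz'
      rw [Finset.mem_range, Nat.lt_succ_iff]
      exact Nat.floor_le_floor (hz q hq).2.2.2.2.2.1
    have := Finset.card_le_card hsub
    rwa [Finset.card_range] at this
  have c4 : ((⌊P.β ^ k * ℓ⌋₊ + 1 : ℕ) : ℝ) ≤ (ℓ + 1) * P.β ^ k := by
    push_cast
    have := Nat.floor_le (show 0 ≤ P.β ^ k * ℓ by positivity)
    nlinarith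
  have d1 : (s.card : ℝ) ≤ C0 * ((s.image fun q => P.β ^ k * q.1).card : ℝ) := by
    exact_mod_cast c1
  have d2 : ((s.image fun q => P.β ^ k * q.1).card : ℝ) ≤
      C1 * (((s.image fun q => P.β ^ k * q.1).image fun z => ⌊z⌋₊).card : ℝ) := by
    exact_mod_cast c2
  have d3 : (((s.image fun q => P.β ^ k * q.1).image fun z => ⌊z⌋₊).card : ℝ) ≤
      (ℓ + 1) * P.β ^ k := le_trans (by exact_mod_cast c3) c4
  calc (s.card : ℝ) ≤ C0 * ((s.image fun q => P.β ^ k * q.1).card : ℝ) := d1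
    _ ≤ C0 * (C1 * ((ℓ + 1) * P.β ^ k)) := by
        refine mul_le_mul_of_nonneg_left (d2.trans ?_) (Nat.cast_nonneg _)
        exact mul_le_mul_of_nonneg_left d3 (Nat.cast_nonneg _)
    _ ≤ (C0 + 1) * ((C1 + 1) * ((ℓ + 1) * P.β ^ k)) := by
        have h2 : 0 ≤ (ℓ + 1) * P.β ^ k := by positivity
        have h3 : (C1 : ℝ) * ((ℓ + 1) * P.β ^ k) ≤ (C1 + 1) * ((ℓ + 1) * P.β ^ k) :=
          mul_le_mul_of_nonneg_right (by linarith) h2
        refine mul_le_mul (by linarith) h3 (by positivity) (by positivity)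
    _ = (C0 + 1) * ((C1 + 1) * (ℓ + 1)) * P.β ^ k := by ring

/-- The tiles of level `k` form a finite set. -/
theorem level_finite (hℓA : ℓ ∈ P.A) (k : ℕ) : {q : ℝ × ℝ | P.val ℓ k q.1 q.2 ≠ 0}.Finite := by
  have hβ : 0 < P.β ^ k := pow_pos P.β0 k
  have hf := P.fin' 0 (P.β ^ k * ℓ) (P.K1 ℓ + 1)
  have hinj : Set.InjOn (fun q : ℝ × ℝ => (P.β ^ k * q.1, P.β ^ k * q.2))
      {q : ℝ × ℝ | P.val ℓ k q.1 q.2 ≠ 0} := by
    intro q _ r _ h
    have h1 := (Prod.mk.injEq _ _ _ _ ▸ h : _ ∧ _)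
    exact Prod.ext (mul_left_cancel₀ hβ.ne' h1.1) (mul_left_cancel₀ hβ.ne' h1.2)
  refine Set.Finite.of_finite_image ((hf.prod hf).subset ?_) hinj
  rintro _ ⟨q, hq, rfl⟩
  have hv : P.val ℓ k q.1 q.2 ≠ 0 := hq
  obtain ⟨-, a1, a2, a3, a4, a5⟩ := val_adm hv
  obtain ⟨b1, b2⟩ := val_end hℓA hv
  rw [zpow_natCast] at b1 b2
  have h5 : 0 ≤ q.2 := a3.trans a4.le
  exact ⟨⟨P.powA k a1, by positivity, mul_le_mul_of_nonneg_left (a4.le.trans a5) hβ.le, b1⟩,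
    ⟨P.powA k a2, by positivity, mul_le_mul_of_nonneg_left a5 hβ.le, b2⟩⟩

/-- Heavy tiles. -/
theorem heavy (hℓ : 0 < ℓ) (hℓA : ℓ ∈ P.A) : ∃ δ : ℝ, 0 < δ ∧ ∀ (k : ℕ) (x : ℝ), 0 ≤ x → x < ℓ →
    ∃ c c' : ℝ, c ≤ x ∧ x < c' ∧ δ ≤ P.val ℓ k c c' := by
  classical
  obtain ⟨C, hC⟩ := P.card_local (2 * ℓ) (P.K1 ℓ + 1)
  have hCp : (0 : ℝ) < (C : ℝ) + 1 := by positivity
  refine ⟨1 / (C + 1), by positivity, fun k x hx0 hx1 => ?_⟩
  have hβ : 0 < P.β ^ k := pow_pos P.β0 k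
  obtain ⟨y, hy⟩ : ∃ y, y = P.β ^ k * x := ⟨_, rfl⟩
  have hy0 : 0 ≤ y := by rw [hy]; positivity
  have hy1 : y < P.β ^ k * ℓ := by rw [hy]; exact mul_lt_mul_of_pos_left hx1 hβ
  have hZf := P.fin' (y - ℓ) (y + ℓ) (P.K1 ℓ + 1)
  have hZc : hZf.toFinset.card ≤ C := by
    refine hC _ ?_ ?_
    · intro z hz
      rw [Set.Finite.mem_toFinset] at hz
      exact ⟨hz.1, hz.2.2.2⟩
    · intro z hz w hw
      rw [Set.Finite.mem_toFinset] at hz hw
      rw [abs_le]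
      constructor <;> linarith [hz.2.1, hz.2.2.1, hw.2.1, hw.2.2.1]
  -- a free threshold
  obtain ⟨j, hj, hfree⟩ : ∃ j : ℕ, j ≤ C ∧ ∀ z ∈ hZf.toFinset,
      ¬ (P.K1 ℓ + j / (C + 1) < P.N z ∧ P.N z ≤ P.K1 ℓ + (j + 1) / (C + 1)) := by
    by_contra hne
    push Not at hne
    have hne' : ∀ j : ℕ, ∃ z : ℝ, j ≤ C → z ∈ hZf.toFinset ∧
        P.K1 ℓ + j / (C + 1) < P.N z ∧ P.N z ≤ P.K1 ℓ + (j + 1) / (C + 1) := by
      intro j
      by_cases hj : j ≤ C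
      · obtain ⟨z, hz, h1, h2⟩ := hne j hj
        exact ⟨z, fun _ => ⟨hz, h1, h2⟩⟩
      · exact ⟨0, fun h => absurd h hj⟩
    choose f hf using hne'
    have hcard : (Finset.range (C + 1)).card ≤ hZf.toFinset.card := by
      refine Finset.card_le_card_of_injOn f ?_ ?_
      · intro j hj
        rw [Finset.mem_coe, Finset.mem_range] at hj
        exact Finset.mem_coe.2 (hf j (by omega)).1
      · intro i hi j hj hij
        rw [Finset.mem_coe, Finset.mem_range] at hi hj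
        obtain ⟨-, a1, a2⟩ := hf i (by omega)
        obtain ⟨-, b1, b2⟩ := hf j (by omega)
        rw [hij] at a1 a2
        have h1 : (i : ℝ) / (C + 1) < (j + 1) / (C + 1) := by linarith
        have h2 : (j : ℝ) / (C + 1) < (i + 1) / (C + 1) := by linarith
        rw [div_lt_div_iff_of_pos_right hCp] at h1 h2
        have h3 : i < j + 1 := by exact_mod_cast h1
        have h4 : j < i + 1 := by exact_mod_cast h2
        omega
    rw [Finset.card_range] at hcard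
    omega
  obtain ⟨K, hK⟩ : ∃ K, K = P.K1 ℓ + j / (C + 1) := ⟨_, rfl⟩
  have hK1 : P.K1 ℓ ≤ K := by
    rw [hK]
    have : (0 : ℝ) ≤ (j : ℝ) / (C + 1) := by positivity
    linarith
  have hK2 : P.K1 ℓ + (j + 1) / (C + 1) = K + 1 / (C + 1) := by
    rw [hK]
    ring
  have hK3 : K + 1 / (C + 1) ≤ P.K1 ℓ + 1 := by
    rw [← hK2]
    have : ((j : ℝ) + 1) / (C + 1) ≤ 1 := by
      rw [div_le_one hCp]
      have : (j : ℝ) ≤ C := by exact_mod_cast hj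
      linarith
    linarith
  have hδ : (0 : ℝ) < 1 / (C + 1) := by positivity
  -- the tile
  have hlo := P.fin' 0 y K
  have hhi : {z : ℝ | z ∈ P.A ∧ y < z ∧ z ≤ P.β ^ k * ℓ ∧ P.N z ≤ K}.Finite :=
    (P.fin' y (P.β ^ k * ℓ) K).subset fun z hz => ⟨hz.1, hz.2.1.le, hz.2.2⟩
  obtain ⟨w0, hw0A, hw00, hw0y, hw0y', hw0N⟩ := P.dense hℓ hℓA y hy0
  have hw0N' : P.N w0 ≤ P.K1 ℓ := hw0N.trans (by unfold K1; linarith)
  obtain ⟨z0, hz0, hz0max⟩ := Set.exists_max_image _ id hlo ⟨w0, hw0A, hw00, hw0y',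
    hw0N'.trans hK1⟩
  have hNl : P.N (P.β ^ k * ℓ) ≤ K := (P.Npow_le k hℓA).trans ((N_le_K1 hℓA).trans hK1)
  obtain ⟨z1, hz1, hz1min⟩ := Set.exists_min_image _ id hhi ⟨P.β ^ k * ℓ, P.powA k hℓA, hy1,
    le_rfl, hNl⟩
  simp only [id] at hz0max hz1min
  have e0 : y - ℓ < z0 := hw0y.trans_le (hz0max w0 ⟨hw0A, hw00, hw0y', hw0N'.trans hK1⟩)
  have e1 : z1 ≤ y + ℓ := by
    obtain ⟨w1, hw1A, -, hw1y, hw1y', hw1N⟩ := P.dense hℓ hℓA (y + ℓ) (by linarith)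
    have hw1N' : P.N w1 ≤ P.K1 ℓ := hw1N.trans (by unfold K1; linarith)
    by_cases h : w1 ≤ P.β ^ k * ℓ
    · exact (hz1min w1 ⟨hw1A, by linarith, h, hw1N'.trans hK1⟩).trans hw1y'
    · exact hz1.2.2.1.trans ((not_le.1 h).le.trans hw1y')
  have hinv : P.β ^ (-(k : ℤ)) = (P.β ^ k)⁻¹ := by rw [zpow_neg, zpow_natCast]
  have hk : ∀ z, P.β ^ (k : ℤ) * ((P.β ^ k)⁻¹ * z) = z := by
    intro z
    rw [zpow_natCast]
    field_simp
  have hzz : z0 < z1 := hz0.2.2.1.trans_lt hz1.2.1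
  refine ⟨(P.β ^ k)⁻¹ * z0, (P.β ^ k)⁻¹ * z1, ?_, ?_, ?_⟩
  · rw [inv_mul_le_iff₀ hβ, ← hy]
    exact hz0.2.2.1
  · rw [lt_inv_mul_iff₀ hβ, ← hy]
    exact hz1.2.1
  · have hadm : P.Adm ℓ k ((P.β ^ k)⁻¹ * z0) ((P.β ^ k)⁻¹ * z1) := by
      refine ⟨Int.natCast_nonneg k, ?_, ?_, ?_, ?_, ?_⟩
      · rw [← hinv]; exact P.zpowA _ hz0.1
      · rw [← hinv]; exact P.zpowA _ hz1.1
      · have := hz0.2.1
        positivity
      · exact mul_lt_mul_of_pos_left hzz (inv_pos.2 hβ)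
      · rw [inv_mul_le_iff₀ hβ]
        exact hz1.2.2.1
    rw [val_eq hadm]
    have hT : K + 1 / (C + 1) ≤ P.T ℓ k ((P.β ^ k)⁻¹ * z0) ((P.β ^ k)⁻¹ * z1) := by
      refine le_T k hK3 ?_
      intro x' hx' h1 h2
      rw [inv_mul_lt_iff₀ hβ] at h1
      rw [lt_inv_mul_iff₀ hβ] at h2
      rw [zpow_natCast]
      obtain ⟨w, hw⟩ : ∃ w, w = P.β ^ k * x' := ⟨_, rfl⟩
      have hwA : w ∈ P.A := by rw [hw]; exact P.powA k hx'
      rw [← hw] at h1 h2 ⊢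
      have h3 : K < P.N w := by
        by_contra hle
        push Not at hle
        rcases le_or_gt w y with h | h
        · have := hz0max w ⟨hwA, (hz0.2.1.trans h1.le), h, hle⟩
          linarith
        · have := hz1min w ⟨hwA, h, h2.le.trans hz1.2.2.1, hle⟩
          linarith
      by_contra hlt
      push Not at hlt
      refine hfree w ?_ ⟨by rw [← hK]; exact h3, by rw [hK2]; exact hlt.le⟩
      rw [Set.Finite.mem_toFinset]
      exact ⟨hwA, by linarith, by linarith, by linarith⟩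
    have hO : P.O ℓ k ((P.β ^ k)⁻¹ * z0) ((P.β ^ k)⁻¹ * z1) ≤ K := by
      refine max_le hK1 (max_le ?_ ?_)
      · rw [hk]; exact hz0.2.2.2
      · rw [hk]; exact hz1.2.2.2
    refine le_trans ?_ (le_max_right _ _)
    linarith

end Sys

end Pool.Agent.H54.Pisot
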