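import Pool.Agent.H54.Pisot.Act

/-!
# The energy of a piecewise affine permutation is finite
-/

set_option autoImplicit false

open Set
open scoped ENNReal

namespace Pool.Agent.H54.Pisot

open Pool.Agent.H48.RN (ep ep_zero ep_mono ep_ne_top ep_neg)

namespace Sys

variable {P : Sys} {ℓ : ℝ}

/-- Uniform bound of the change of weight of the tiles. -/
theorem diff_bound (hℓA : ℓ ∈ P.A) {g : Equiv.Perm (Set.Ico (0 : ℝ) ℓ)}
    (hg : PW (P.A : Set ℝ) P.β ℓ g) :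
    ∃ C : ℝ, 0 ≤ C ∧ ∀ (k : ℕ) (c c' : ℝ), P.val ℓ k c c' ≠ 0 →
      |P.SS ℓ (g • P.ch k c c') - P.val ℓ k c c'| ≤ C * P.ρ ^ k := by
  classical
  obtain ⟨s, D, hs, hD, hpc⟩ := pieces hg
  have hK := K1_pos (P := P) hℓA
  have hρ0 := P.ρ0
  -- the threshold
  have hlim : ∀ M : ℝ, ∃ n : ℕ, ∀ k ≥ n, P.ρ ^ k * M ≤ P.K1 ℓ := by
    intro M
    obtain ⟨n, hn⟩ := exists_pow_lt_of_lt_one (show 0 < P.K1 ℓ / (|M| + 1) by positivity) P.ρ1
    refine ⟨n, fun k hk => ?_⟩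
    have h1 : P.ρ ^ k ≤ P.ρ ^ n := pow_le_pow_of_le_one P.ρ0.le P.ρ1.le hk
    have h2 : 0 ≤ P.ρ ^ k := by positivity
    rw [lt_div_iff₀ (by positivity)] at hn
    have h3 := le_abs_self M
    have h4 := abs_nonneg M
    nlinarith
  choose n hn using hlim
  obtain ⟨kg, hkg⟩ : ∃ kg : ℕ, kg = (s.sup fun u => n (P.N u)) + (D.sup fun q => q.1.toNat) :=
    ⟨_, rfl⟩
  refine ⟨(P.ρ ^ kg)⁻¹ + ∑ q ∈ D, 2 * (P.ρ ^ (-q.1) * P.N q.2), ?_, ?_⟩
  · have : 0 ≤ ∑ q ∈ D, 2 * (P.ρ ^ (-q.1) * P.N q.2) := Finset.sum_nonneg fun q hq => by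
      have := P.Nn _ (hD q hq)
      positivity
    positivity
  intro k c c' hv
  have hadm := val_adm hv
  have hsum : 0 ≤ ∑ q ∈ D, 2 * (P.ρ ^ (-q.1) * P.N q.2) := Finset.sum_nonneg fun q hq => by
    have := P.Nn _ (hD q hq)
    positivity
  by_cases hk : kg ≤ k
  · obtain ⟨q, hq, hq2⟩ := hpc c c' hadm.2.2.2.1 hadm.2.2.2.2.1 hadm.2.2.2.2.2 (by
      rintro u hu ⟨h1, h2⟩
      have h3 := val_inner hℓA hv (hs u hu) h1 h2
      rw [zpow_natCast] at h3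
      have h4 := P.Npow k (hs u hu)
      have h5 := hn (P.N u) k (by
        have h6 : n (P.N u) ≤ s.sup fun u => n (P.N u) :=
          Finset.le_sup (f := fun u => n (P.N u)) hu
        omega)
      linarith)
    have hqk : q.1.toNat ≤ k := by
      have h6 : q.1.toNat ≤ D.sup fun q => q.1.toNat :=
        Finset.le_sup (f := fun q : ℤ × ℝ => q.1.toNat) hq
      omega
    have hqk' : q.1 ≤ k := by omega
    rw [smul_ch hq2, SS_ch (adm_image hadm (hD q hq) hqk' hq2)]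
    refine (val_aff hℓA hadm (hD q hq) (adm_image hadm (hD q hq) hqk' hq2)).trans ?_
    obtain ⟨m, hm⟩ : ∃ m : ℕ, (m : ℤ) = k - q.1 := ⟨(k - q.1).toNat, by omega⟩
    have e1 : P.N (P.β ^ ((k : ℤ) - q.1) * q.2) ≤ P.ρ ^ (-q.1) * P.N q.2 * P.ρ ^ k := by
      rw [← hm, zpow_natCast]
      refine (P.Npow m (hD q hq)).trans (le_of_eq ?_)
      have e2 : P.ρ ^ m = P.ρ ^ (-q.1) * P.ρ ^ k := by
        rw [← zpow_natCast, hm, ← zpow_natCast P.ρ k, ← zpow_add₀ P.ρ0.ne']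
        congr 1
        ring
      rw [e2]
      ring
    have e3 : 2 * (P.ρ ^ (-q.1) * P.N q.2) ≤ ∑ q ∈ D, 2 * (P.ρ ^ (-q.1) * P.N q.2) :=
      Finset.single_le_sum (f := fun q : ℤ × ℝ => 2 * (P.ρ ^ (-q.1) * P.N q.2)) (fun q hq => by
        have := P.Nn _ (hD q hq)
        positivity) hq
    have e4 : 0 ≤ P.ρ ^ k := by positivity
    have e5 : 0 ≤ (P.ρ ^ kg)⁻¹ := by positivity
    nlinarith
  · push Not at hk
    have h1 : |P.SS ℓ (g • P.ch k c c') - P.val ℓ k c c'| ≤ 1 := by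
      rw [abs_le]
      have a1 := SS_nonneg (P := P) (ℓ := ℓ) (g • P.ch k c c')
      have a2 := SS_le_one hℓA (g • P.ch k c c')
      have a3 := val_nonneg (P := P) (ℓ := ℓ) k c c'
      have a4 := val_le_one (P := P) k c c' hℓA
      constructor <;> linarith
    refine h1.trans ?_
    have h2 : P.ρ ^ kg ≤ P.ρ ^ k := pow_le_pow_of_le_one P.ρ0.le P.ρ1.le hk.le
    have h3 : 0 < P.ρ ^ kg := by positivity
    have h4 : 1 ≤ (P.ρ ^ kg)⁻¹ * P.ρ ^ k := by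
      rw [inv_mul_eq_div, le_div_iff₀ h3, one_mul]
      exact h2
    have h5 : 0 ≤ P.ρ ^ k := by positivity
    nlinarith

variable (P ℓ) in
/-- The tiles. -/
def Til : Set (ℕ × ℝ × ℝ) := {q | P.val ℓ q.1 q.2.1 q.2.2 ≠ 0}

variable (P) in
/-- The chart of a tile. -/
noncomputable def chN (q : ℕ × ℝ × ℝ) : Mp := P.ch q.1 q.2.1 q.2.2

theorem chN_inj : Set.InjOn P.chN (P.Til ℓ) := by
  rintro ⟨k, c, c'⟩ h ⟨k', e, e'⟩ h' he
  have a := val_adm (P := P) (ℓ := ℓ) (k := k) (c := c) (c' := c') h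
  have b := val_adm (P := P) (ℓ := ℓ) (k := k') (c := e) (c' := e') h'
  obtain ⟨h1, h2, h3⟩ := ch_inj a.2.2.2.1 a.2.2.2.2.1 b.2.2.2.1 b.2.2.2.2.1 he
  have h4 : k = k' := by exact_mod_cast h1
  rw [h4, h2, h3]

open Classical in
/-- The sum of the changes of weight. -/
theorem tile_sum (hℓ : 0 < ℓ) (hℓA : ℓ ∈ P.A) {p : ℝ} (hp : 1 ≤ p) (hβρ : P.β * P.ρ ^ p < 1)
    {g : Equiv.Perm (Set.Ico (0 : ℝ) ℓ)} (hg : PW (P.A : Set ℝ) P.β ℓ g) :
    ∑' q : P.Til ℓ, ep p (P.SS ℓ (g • P.chN q) - P.SS ℓ (P.chN q)) ≠ ∞ := by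
  obtain ⟨C, hC0, hC⟩ := diff_bound hℓA hg
  obtain ⟨C1, hC1, hcount⟩ := count (P := P) hℓ hℓA
  have hρ0 := P.ρ0
  have hβ0 := P.β0
  have e1 : ∑' q : P.Til ℓ, ep p (P.SS ℓ (g • P.chN q) - P.SS ℓ (P.chN q)) =
      ∑' (k : ℕ) (r : ℝ × ℝ), (P.Til ℓ).indicator
        (fun q => ep p (P.SS ℓ (g • P.chN q) - P.SS ℓ (P.chN q))) (k, r) := by
    rw [tsum_subtype (P.Til ℓ) (fun q => ep p (P.SS ℓ (g • P.chN q) - P.SS ℓ (P.chN q)))]
    exact ENNReal.tsum_prod' 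
  rw [e1]
  have hlev : ∀ k : ℕ, ∑' r : ℝ × ℝ, (P.Til ℓ).indicator
      (fun q => ep p (P.SS ℓ (g • P.chN q) - P.SS ℓ (P.chN q))) (k, r) ≤
      ENNReal.ofReal (C1 * C ^ p * (P.β * P.ρ ^ p) ^ k) := by
    intro k
    have hfin := level_finite (P := P) hℓA k
    rw [tsum_eq_sum (s := hfin.toFinset) (by
      intro r hr
      rw [Set.Finite.mem_toFinset] at hr
      exact Set.indicator_of_notMem (s := P.Til ℓ) (a := (k, r)) hr _)]
    have hle : ∀ r ∈ hfin.toFinset, (P.Til ℓ).indicator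
        (fun q => ep p (P.SS ℓ (g • P.chN q) - P.SS ℓ (P.chN q))) (k, r) ≤
        ENNReal.ofReal ((C * P.ρ ^ k) ^ p) := by
      intro r hr
      rw [Set.Finite.mem_toFinset] at hr
      have hr' : P.val ℓ k r.1 r.2 ≠ 0 := hr
      have hmem : (k, r) ∈ P.Til ℓ := hr
      rw [Set.indicator_of_mem hmem]
      refine ep_mono hp ?_
      have e2 : P.SS ℓ (P.chN (k, r)) = P.val ℓ k r.1 r.2 := SS_ch (val_adm hr')
      rw [e2]
      exact hC k r.1 r.2 hr'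
    refine (Finset.sum_le_card_nsmul _ _ _ hle).trans ?_
    have hc := hcount k hfin.toFinset (by
      intro q hq
      rw [Set.Finite.mem_toFinset] at hq
      exact hq)
    rw [nsmul_eq_mul]
    have e3 : ((hfin.toFinset.card : ℕ) : ℝ≥0∞) ≤ ENNReal.ofReal (C1 * P.β ^ k) := by
      rw [← ENNReal.ofReal_natCast]
      exact ENNReal.ofReal_le_ofReal hc
    refine (mul_le_mul_left e3 _).trans ?_
    rw [← ENNReal.ofReal_mul (by positivity)]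
    refine ENNReal.ofReal_le_ofReal (le_of_eq ?_)
    rw [Real.mul_rpow hC0 (by positivity), mul_pow]
    have e4 : (P.ρ ^ k) ^ p = (P.ρ ^ p) ^ k := by
      rw [← Real.rpow_natCast, ← Real.rpow_mul hρ0.le, mul_comm, Real.rpow_mul hρ0.le,
        Real.rpow_natCast]
    rw [e4]
    ring
  refine ne_top_of_le_ne_top ?_ (ENNReal.tsum_le_tsum hlev)
  refine Summable.tsum_ofReal_ne_top ?_
  refine Summable.mul_left _ ?_
  exact summable_geometric_of_lt_one (by positivity) hβρ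

open Classical in
theorem energy_ne_top (hℓ : 0 < ℓ) (hℓA : ℓ ∈ P.A) {p : ℝ} (hp : 1 ≤ p)
    (hβρ : P.β * P.ρ ^ p < 1) {g : Equiv.Perm (Set.Ico (0 : ℝ) ℓ)}
    (hg : PW (P.A : Set ℝ) P.β ℓ g) (hg' : PW (P.A : Set ℝ) P.β ℓ g⁻¹) :
    ∑' F : Mp, ep p (P.SS ℓ (g⁻¹ • F) - P.SS ℓ F) ≠ ∞ := by
  have h1 := tile_sum hℓ hℓA hp hβρ hg
  have h2 := tile_sum hℓ hℓA hp hβρ hg'
  have i1 : Set.InjOn (fun q => g • P.chN q) (P.Til ℓ) := by
    intro q hq r hr h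
    exact chN_inj hq hr (smul_left_cancel g h)
  have s1 : ∑' F : ((fun q => g • P.chN q) '' (P.Til ℓ)), ep p (P.SS ℓ (g⁻¹ • F.1) - P.SS ℓ F.1) =
      ∑' q : P.Til ℓ, ep p (P.SS ℓ (g • P.chN q) - P.SS ℓ (P.chN q)) := by
    rw [tsum_image (fun F : Mp => ep p (P.SS ℓ (g⁻¹ • F) - P.SS ℓ F)) i1]
    refine tsum_congr fun q => ?_
    rw [inv_smul_smul, ← ep_neg, neg_sub]
  have s2 : ∑' F : (P.chN '' (P.Til ℓ)), ep p (P.SS ℓ (g⁻¹ • F.1) - P.SS ℓ F.1) =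
      ∑' q : P.Til ℓ, ep p (P.SS ℓ (g⁻¹ • P.chN q) - P.SS ℓ (P.chN q)) :=
    tsum_image (fun F : Mp => ep p (P.SS ℓ (g⁻¹ • F) - P.SS ℓ F)) chN_inj
  rw [← s1] at h1
  rw [← s2] at h2
  refine ne_top_of_le_ne_top (ENNReal.add_ne_top.2 ⟨h1, h2⟩) ?_
  rw [tsum_subtype ((fun q => g • P.chN q) '' (P.Til ℓ))
      (fun F : Mp => ep p (P.SS ℓ (g⁻¹ • F) - P.SS ℓ F)),
    tsum_subtype (P.chN '' (P.Til ℓ)) (fun F : Mp => ep p (P.SS ℓ (g⁻¹ • F) - P.SS ℓ F)),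
    ← ENNReal.tsum_add]
  refine ENNReal.tsum_le_tsum fun F => ?_
  by_cases hF : P.SS ℓ F = 0
  · by_cases hF' : P.SS ℓ (g⁻¹ • F) = 0
    · rw [hF, hF', sub_zero, ep_zero hp]
      exact zero_le
    · obtain ⟨k, c, c', h3, h4⟩ := SS_ne hF'
      have hmem : F ∈ (fun q => g • P.chN q) '' (P.Til ℓ) := by
        refine ⟨(k, c, c'), h4, ?_⟩
        change g • P.ch k c c' = F
        rw [← h3, smul_inv_smul]
      rw [Set.indicator_of_mem hmem]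
      exact le_self_add
  · obtain ⟨k, c, c', h3, h4⟩ := SS_ne hF
    have hmem : F ∈ P.chN '' (P.Til ℓ) := ⟨(k, c, c'), h4, h3.symm⟩
    rw [Set.indicator_of_mem hmem]
    exact le_add_self

end Sys

end Pool.Agent.H54.Pisot
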