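import Pool.Agent.H54.Pisot.Base

/-!
# The system attached to a real number field with a generator
-/

set_option autoImplicit false

open Set

namespace Pool.Agent.H54.Pisot

section W

variable {K : Type} [Field K] (b : K) (t : ℝ)

/-- The values of the denominator function. -/
def WS (c : K) : Set ℝ := {r | ∃ m : ℤ, IsIntegral ℤ (b ^ m * c) ∧ r = t ^ (-m)}

/-- The denominator function. -/
noncomputable def W (c : K) : ℝ := sInf (WS b t c)

variable {b t}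

theorem WS_nonneg (ht : 0 < t) (c : K) : ∀ r ∈ WS b t c, 0 ≤ r := by
  rintro r ⟨m, -, rfl⟩
  positivity

theorem WS_bdd (ht : 0 < t) (c : K) : BddBelow (WS b t c) := ⟨0, fun r hr => WS_nonneg ht c r hr⟩

theorem W_nonneg (ht : 0 < t) (c : K) : 0 ≤ W b t c := Real.sInf_nonneg (WS_nonneg ht c)

theorem W_neg (c : K) : W b t (-c) = W b t c := by
  unfold W
  congr 1
  ext r
  constructor
  · rintro ⟨m, h, rfl⟩
    refine ⟨m, ?_, rfl⟩
    rw [mul_neg] at h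
    simpa using h.neg
  · rintro ⟨m, h, rfl⟩
    refine ⟨m, ?_, rfl⟩
    rw [mul_neg]
    exact h.neg

theorem W_mul (ht : 0 < t) (hb : b ≠ 0) {c : K} (hc : (WS b t c).Nonempty) :
    W b t (b * c) ≤ t * W b t c := by
  rw [← div_le_iff₀' ht]
  refine le_csInf hc ?_
  rintro r ⟨m, h, rfl⟩
  rw [div_le_iff₀' ht]
  refine csInf_le (WS_bdd ht _) ⟨m - 1, ?_, ?_⟩
  · have e : b ^ (m - 1) * (b * c) = b ^ m * c := by
      rw [← mul_assoc, ← zpow_add_one₀ hb, sub_add_cancel]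
    rwa [e]
  · rw [← zpow_one_add₀ ht.ne']
    congr 1
    ring

theorem int_up (hb : IsIntegral ℤ b) (hb0 : b ≠ 0) {m n : ℤ} (hmn : m ≤ n) {c : K}
    (h : IsIntegral ℤ (b ^ m * c)) : IsIntegral ℤ (b ^ n * c) := by
  obtain ⟨k, hk⟩ : ∃ k : ℕ, (k : ℤ) = n - m := ⟨(n - m).toNat, by omega⟩
  have e : b ^ n * c = b ^ k * (b ^ m * c) := by
    rw [← mul_assoc, ← zpow_natCast, ← zpow_add₀ hb0, hk, sub_add_cancel]
  rw [e]
  exact (hb.pow k).mul h

theorem W_add (ht : 0 < t) (hb : IsIntegral ℤ b) (hb0 : b ≠ 0) {c d : K}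
    (hc : (WS b t c).Nonempty) (hd : (WS b t d).Nonempty) :
    W b t (c + d) ≤ W b t c + W b t d := by
  have h1 : ∀ r ∈ WS b t c, ∀ s ∈ WS b t d, W b t (c + d) ≤ r + s := by
    rintro _ ⟨m, hm, rfl⟩ _ ⟨n, hn, rfl⟩
    have p1 : 0 < t ^ (-m) := zpow_pos ht _
    have p2 : 0 < t ^ (-n) := zpow_pos ht _
    rcases le_total m n with h | h
    · have h2 : W b t (c + d) ≤ t ^ (-n) := by
        refine csInf_le (WS_bdd ht _) ⟨n, ?_, rfl⟩
        rw [mul_add]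
        exact (int_up hb hb0 h hm).add hn
      linarith
    · have h2 : W b t (c + d) ≤ t ^ (-m) := by
        refine csInf_le (WS_bdd ht _) ⟨m, ?_, rfl⟩
        rw [mul_add]
        exact hm.add (int_up hb hb0 h hn)
      linarith
  have h2 : ∀ r ∈ WS b t c, W b t (c + d) - r ≤ W b t d := by
    intro r hr
    refine le_csInf hd fun s hs => ?_
    have := h1 r hr s hs
    linarith
  have h3 : W b t (c + d) - W b t d ≤ W b t c := by
    refine le_csInf hc fun r hr => ?_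
    have := h2 r hr
    linarith
  linarith

end W

section F

open scoped Classical

variable {K : Type} [Field K] [NumberField K] (ι : K →+* ℝ) (b : K) (t : ℝ)

/-- the embedding of the real field in the complex field -/
noncomputable def φ0 : K →+* ℂ := Complex.ofRealHom.comp ι

/-- The seminorm. -/
noncomputable def NF (c : K) : ℝ := (∑ φ ∈ Finset.univ.erase (φ0 ι), ‖φ c‖) + W b t c

/-- The subgroup. -/
def AF (hb : IsIntegral ℤ b) : AddSubgroup ℝ where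
  carrier := {c | ∃ x : K, (∃ m : ℕ, IsIntegral ℤ (b ^ m * x)) ∧ c = ι x}
  zero_mem' := ⟨0, ⟨0, by rw [mul_zero]; exact isIntegral_zero⟩, (map_zero ι).symm⟩
  add_mem' := by
    rintro _ _ ⟨x, ⟨m, hm⟩, rfl⟩ ⟨y, ⟨n, hn⟩, rfl⟩
    refine ⟨x + y, ⟨m + n, ?_⟩, (map_add ι x y).symm⟩
    rw [mul_add]
    refine IsIntegral.add ?_ ?_
    · rw [pow_add, mul_comm (b ^ m), mul_assoc]
      exact (hb.pow n).mul hm
    · rw [pow_add, mul_assoc]
      exact (hb.pow m).mul hn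
  neg_mem' := by
    rintro _ ⟨x, ⟨m, hm⟩, rfl⟩
    refine ⟨-x, ⟨m, ?_⟩, (map_neg ι x).symm⟩
    rw [mul_neg]
    exact hm.neg

variable {ι b t}

theorem mem_AF {hb : IsIntegral ℤ b} {c : ℝ} :
    c ∈ AF ι b hb ↔ ∃ x : K, (∃ m : ℕ, IsIntegral ℤ (b ^ m * x)) ∧ c = ι x := Iff.rfl

theorem WS_nonempty {x : K} (h : ∃ m : ℕ, IsIntegral ℤ (b ^ m * x)) : (WS b t x).Nonempty := by
  obtain ⟨m, hm⟩ := h
  exact ⟨_, (m : ℤ), by rwa [zpow_natCast], rfl⟩

theorem NF_nonneg (ht : 0 < t) (x : K) : 0 ≤ NF ι b t x := by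
  unfold NF
  have h1 := W_nonneg (b := b) ht x
  have h2 : 0 ≤ ∑ φ ∈ Finset.univ.erase (φ0 ι), ‖φ x‖ :=
    Finset.sum_nonneg fun φ _ => norm_nonneg _
  linarith

theorem NF_neg (x : K) : NF ι b t (-x) = NF ι b t x := by
  unfold NF
  rw [W_neg]
  congr 1
  exact Finset.sum_congr rfl fun φ _ => by rw [map_neg, norm_neg]

theorem NF_add (ht : 0 < t) (hb : IsIntegral ℤ b) (hb0 : b ≠ 0) {x y : K}
    (hx : ∃ m : ℕ, IsIntegral ℤ (b ^ m * x)) (hy : ∃ m : ℕ, IsIntegral ℤ (b ^ m * y)) :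
    NF ι b t (x + y) ≤ NF ι b t x + NF ι b t y := by
  unfold NF
  have h1 := W_add (b := b) ht hb hb0 (WS_nonempty (t := t) hx) (WS_nonempty (t := t) hy)
  have h2 : ∑ φ ∈ Finset.univ.erase (φ0 ι), ‖φ (x + y)‖ ≤
      ∑ φ ∈ Finset.univ.erase (φ0 ι), ‖φ x‖ + ∑ φ ∈ Finset.univ.erase (φ0 ι), ‖φ y‖ := by
    rw [← Finset.sum_add_distrib]
    refine Finset.sum_le_sum fun φ _ => ?_
    rw [map_add]
    exact norm_add_le _ _
  linarith

theorem NF_mul {ρ : ℝ} (ht : 0 < t) (htρ : t ≤ ρ) (hb0 : b ≠ 0)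
    (hρ : ∀ φ : K →+* ℂ, φ ≠ φ0 ι → ‖φ b‖ ≤ ρ) {x : K}
    (hx : ∃ m : ℕ, IsIntegral ℤ (b ^ m * x)) : NF ι b t (b * x) ≤ ρ * NF ι b t x := by
  unfold NF
  have h1 := W_mul (b := b) ht hb0 (WS_nonempty (t := t) hx)
  have h2 := W_nonneg (b := b) ht x
  have h3 : ∑ φ ∈ Finset.univ.erase (φ0 ι), ‖φ (b * x)‖ ≤
      ρ * ∑ φ ∈ Finset.univ.erase (φ0 ι), ‖φ x‖ := by
    rw [Finset.mul_sum]
    refine Finset.sum_le_sum fun φ hφ => ?_
    rw [map_mul, norm_mul]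
    exact mul_le_mul_of_nonneg_right (hρ φ (Finset.ne_of_mem_erase hφ)) (norm_nonneg _)
  nlinarith

theorem NF_fin {ρ : ℝ} (ht : 0 < t) (ht1 : t < 1) (hb : IsIntegral ℤ b) (hb0 : b ≠ 0)
    (hb1 : 1 ≤ ι b) (hρ1 : ρ ≤ 1) (hρ : ∀ φ : K →+* ℂ, φ ≠ φ0 ι → ‖φ b‖ ≤ ρ) (R : ℝ) :
    {x : K | (∃ m : ℕ, IsIntegral ℤ (b ^ m * x)) ∧ |ι x| ≤ R ∧ NF ι b t x ≤ R}.Finite := by
  obtain ⟨M, hM⟩ := exists_pow_lt_of_lt_one (show (0 : ℝ) < 1 / (|R| + 1) by positivity) ht1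
  have hbM : 1 ≤ (ι b) ^ M := one_le_pow₀ hb1
  have hfin := NumberField.Embeddings.finite_of_norm_le K ℂ ((ι b) ^ M * R)
  have hinj : Set.InjOn (fun x : K => b ^ M * x)
      {x : K | (∃ m : ℕ, IsIntegral ℤ (b ^ m * x)) ∧ |ι x| ≤ R ∧ NF ι b t x ≤ R} := by
    intro x _ y _ h
    exact mul_left_cancel₀ (pow_ne_zero M hb0) h
  refine Set.Finite.of_finite_image (hfin.subset ?_) hinj
  rintro _ ⟨x, ⟨hx, hxR, hN⟩, rfl⟩
  have hR : 0 ≤ R := (abs_nonneg _).trans hxR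
  have hsum : 0 ≤ ∑ φ ∈ Finset.univ.erase (φ0 ι), ‖φ x‖ :=
    Finset.sum_nonneg fun φ _ => norm_nonneg _
  have hWn := W_nonneg (b := b) ht x
  unfold NF at hN
  refine ⟨?_, ?_⟩
  · have hW : W b t x < |R| + 1 := by
      have := le_abs_self R
      linarith
    obtain ⟨_, ⟨m, hm, rfl⟩, hlt⟩ := exists_lt_of_csInf_lt (WS_nonempty (t := t) hx) hW
    have h1 : m ≤ M := by
      by_contra hgt
      push Not at hgt
      have h2 : t ^ (-(M : ℤ)) ≤ t ^ (-m) :=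
        zpow_le_zpow_right_of_le_one₀ ht ht1.le (by omega)
      rw [zpow_neg, zpow_natCast] at h2
      have h3 : 0 < t ^ M := by positivity
      rw [lt_div_iff₀ (by positivity)] at hM
      have h4 : |R| + 1 < (t ^ M)⁻¹ := by
        rw [lt_inv_comm₀ (by positivity) h3, inv_eq_one_div, lt_div_iff₀ (by positivity)]
        exact hM
      linarith
    have h2 := int_up hb hb0 h1 hm
    rwa [zpow_natCast] at h2
  · intro φ
    rw [map_mul, map_pow, norm_mul, norm_pow]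
    by_cases hφ : φ = φ0 ι
    · rw [hφ]
      unfold φ0
      simp only [RingHom.comp_apply, Complex.ofRealHom_eq_coe, Complex.norm_real, Real.norm_eq_abs]
      rw [abs_of_nonneg (show 0 ≤ ι b by linarith)]
      exact mul_le_mul_of_nonneg_left hxR (by linarith)
    · have h1 : ‖φ b‖ ^ M ≤ 1 := pow_le_one₀ (norm_nonneg _) ((hρ φ hφ).trans hρ1)
      have h2 : ‖φ x‖ ≤ ∑ φ ∈ Finset.univ.erase (φ0 ι), ‖φ x‖ :=
        Finset.single_le_sum (f := fun φ : K →+* ℂ => ‖φ x‖) (fun φ _ => norm_nonneg _)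
          (Finset.mem_erase.2 ⟨hφ, Finset.mem_univ _⟩)
      calc ‖φ b‖ ^ M * ‖φ x‖ ≤ 1 * R :=
            mul_le_mul h1 (by linarith) (norm_nonneg _) zero_le_one
        _ ≤ (ι b) ^ M * R := mul_le_mul_of_nonneg_right hbM hR

/-- The system attached to a real number field with a generator. -/
noncomputable def sysF (ρ : ℝ) (ht : 0 < t) (htρ : t ≤ ρ) (hρ1 : ρ < 1) (hb : IsIntegral ℤ b)
    (hb1 : 1 < ι b) (hρ : ∀ φ : K →+* ℂ, φ ≠ φ0 ι → ‖φ b‖ ≤ ρ) : Sys where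
  A := AF ι b hb
  N := fun c => NF ι b t (Function.invFun ι c)
  β := ι b
  ρ := ρ
  β1 := hb1
  ρ0 := ht.trans_le htρ
  ρ1 := hρ1
  mulA := by
    rintro _ ⟨x, ⟨m, hm⟩, rfl⟩
    refine ⟨b * x, ⟨m, ?_⟩, (map_mul ι b x).symm⟩
    rw [mul_left_comm]
    exact hb.mul hm
  divA := by
    rintro _ ⟨x, ⟨m, hm⟩, rfl⟩
    refine ⟨b⁻¹ * x, ⟨m + 1, ?_⟩, ?_⟩
    · have hb0 : b ≠ 0 := by
        rintro rfl
        rw [map_zero] at hb1
        linarith
      rw [pow_succ, mul_assoc, mul_inv_cancel_left₀ hb0]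
      exact hm
    · rw [map_mul, map_inv₀]
  Nn := fun c _ => NF_nonneg ht _
  Nneg := by
    rintro _ ⟨x, -, rfl⟩
    rw [← map_neg, Function.leftInverse_invFun ι.injective, Function.leftInverse_invFun ι.injective,
      NF_neg]
  Nadd := by
    rintro _ ⟨x, hx, rfl⟩ _ ⟨y, hy, rfl⟩
    have hb0 : b ≠ 0 := by
      rintro rfl
      rw [map_zero] at hb1
      linarith
    rw [← map_add, Function.leftInverse_invFun ι.injective, Function.leftInverse_invFun ι.injective,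
      Function.leftInverse_invFun ι.injective]
    exact NF_add ht hb hb0 hx hy
  Nβ := by
    rintro _ ⟨x, hx, rfl⟩
    have hb0 : b ≠ 0 := by
      rintro rfl
      rw [map_zero] at hb1
      linarith
    rw [← map_mul, Function.leftInverse_invFun ι.injective, Function.leftInverse_invFun ι.injective]
    exact NF_mul ht htρ hb0 hρ hx
  fin := by
    intro R
    have hb0 : b ≠ 0 := by
      rintro rfl
      rw [map_zero] at hb1
      linarith
    have h1 := NF_fin (ι := ι) (b := b) ht (htρ.trans_lt hρ1) hb hb0 hb1.le hρ1.le hρ R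
    refine (h1.image ι).subset ?_
    rintro _ ⟨⟨x, hx, rfl⟩, h2, h3⟩
    rw [Function.leftInverse_invFun ι.injective] at h3
    exact ⟨x, ⟨hx, h2, h3⟩, rfl⟩

end F

end Pool.Agent.H54.Pisot
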