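import Pool.Agent.H54.Pisot.En
import Pool.Agent.H48.RN.Defs

/-!
# Properness
-/

set_option autoImplicit false

open Set
open scoped ENNReal

namespace Pool.Agent.H54.Pisot

open Pool.Agent.H48.RN (ep ep_zero ep_mono ep_ne_top ep_neg ActsProperly exists_action p_pos)

namespace Sys

variable {P : Sys} {ℓ : ℝ}

variable (P ℓ) in
/-- Every point is in a tile of level less than `n` mapped to a tile. -/
def Good (n : ℕ) (g : Equiv.Perm (Set.Ico (0 : ℝ) ℓ)) : Prop :=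
  ∀ x, 0 ≤ x → x < ℓ → ∃ (k k' : ℕ) (c c' e e' : ℝ), k < n ∧ c ≤ x ∧ x < c' ∧
    P.val ℓ k c c' ≠ 0 ∧ P.val ℓ k' e e' ≠ 0 ∧ g • P.ch k c c' = P.ch k' e e'

/-- Bounded energy implies good. -/
theorem good_of_energy (hℓ : 0 < ℓ) (hℓA : ℓ ∈ P.A) {p : ℝ} (hp : 1 ≤ p) {R : ℝ≥0∞} (hR : R ≠ ∞) :
    ∃ n : ℕ, ∀ g : Equiv.Perm (Set.Ico (0 : ℝ) ℓ),
      ∑' F : Mp, ep p (P.SS ℓ (g • F) - P.SS ℓ F) ≤ R → P.Good ℓ n g := by
  classical
  obtain ⟨δ, hδ, hheavy⟩ := heavy (P := P) hℓ hℓA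
  have hδp : (0 : ℝ) < δ ^ p := by positivity
  obtain ⟨n, hn⟩ := exists_nat_gt (R.toReal / δ ^ p)
  rw [div_lt_iff₀ hδp] at hn
  refine ⟨n, fun g hg x hx0 hx1 => ?_⟩
  by_contra hne
  push Not at hne
  choose c c' hc hc' hv using fun k : ℕ => hheavy k x hx0 hx1
  have hvne : ∀ k : ℕ, P.val ℓ k (c k) (c' k) ≠ 0 := fun k => by
    have := hv k
    linarith
  have hzero : ∀ k < n, P.SS ℓ (g • P.ch k (c k) (c' k)) = 0 := by
    intro k hk
    by_contra h0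
    obtain ⟨k', e, e', h1, h2⟩ := SS_ne h0
    exact hne k k' (c k) (c' k) e e' hk (hc k) (hc' k) (hvne k) h2 h1
  have hinj : Set.InjOn (fun k : ℕ => P.ch k (c k) (c' k)) (Finset.range n : Set ℕ) := by
    intro k _ j _ h
    have a := val_adm (hvne k)
    have b := val_adm (hvne j)
    have := (ch_inj a.2.2.2.1 a.2.2.2.2.1 b.2.2.2.1 b.2.2.2.2.1 h).1
    exact_mod_cast this
  have h1 : ∑ F ∈ (Finset.range n).image (fun k : ℕ => P.ch k (c k) (c' k)),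
      ep p (P.SS ℓ (g • F) - P.SS ℓ F) ≤ R := (ENNReal.sum_le_tsum _).trans hg
  rw [Finset.sum_image hinj] at h1
  have h2 : ∀ k ∈ Finset.range n, ENNReal.ofReal (δ ^ p) ≤
      ep p (P.SS ℓ (g • P.ch k (c k) (c' k)) - P.SS ℓ (P.ch k (c k) (c' k))) := by
    intro k hk
    rw [hzero k (Finset.mem_range.1 hk), SS_ch (val_adm (hvne k)), zero_sub, ep_neg]
    unfold Pool.Agent.H48.RN.ep
    rw [← ENNReal.ofReal_rpow_of_nonneg hδ.le (by linarith), Real.enorm_eq_ofReal_abs]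
    refine ENNReal.rpow_le_rpow (ENNReal.ofReal_le_ofReal ?_) (by linarith)
    exact (hv k).trans (le_abs_self _)
  have h3 := (Finset.card_nsmul_le_sum _ _ _ h2).trans h1
  rw [Finset.card_range, nsmul_eq_mul, ← ENNReal.ofReal_natCast,
    ← ENNReal.ofReal_mul (by positivity)] at h3
  have h4 := (ENNReal.ofReal_le_iff_le_toReal hR).1 h3
  linarith

/-- A map taking a tile to a tile is affine on the tile. -/
theorem smul_point {g : Equiv.Perm (Set.Ico (0 : ℝ) ℓ)} {k k' : ℤ} {c c' e e' y : ℝ}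
    (h : g • P.ch k c c' = P.ch k' e e') (h0 : 0 ≤ c) (h5 : c' ≤ ℓ) (h1 : c ≤ y) (h2 : y < c') :
    ex g y = e + P.β ^ (k - k') * (y - c) := by
  have hβ : 0 < P.β ^ k := zpow_pos P.β0 _
  have e1 := congrFun h (P.β ^ k * (y - c))
  rw [smul_app, ch_point h1 h2] at e1
  have h3 : P.ch k' e e' (P.β ^ k * (y - c)) ≠ -1 := by
    rw [← e1]
    have := (ex_range g (h0.trans h1) (h2.trans_le h5)).1
    linarith
  rw [e1]
  by_cases hin : 0 ≤ P.β ^ k * (y - c) ∧ P.β ^ k * (y - c) < P.β ^ k' * (e' - e)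
  · rw [ch_in hin]
    have e2 : P.β ^ (k - k') = P.β ^ (-k') * P.β ^ k := by
      rw [← zpow_add₀ P.β0.ne']
      congr 1
      ring
    rw [e2]
    ring
  · exact absurd (ch_out hin) h3

theorem ex_inv (g : Equiv.Perm (Set.Ico (0 : ℝ) ℓ)) (y : ℝ) : ex g⁻¹ (ex g y) = y := by
  rw [← Equiv.Perm.mul_apply, ← ex_mul, inv_mul_cancel, ex_one]
  rfl

/-- The level of the image tiles is bounded. -/
theorem level_bound {n : ℕ} {g : Equiv.Perm (Set.Ico (0 : ℝ) ℓ)} (h' : P.Good ℓ n g⁻¹)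
    {k k' : ℕ} {c c' e e' x : ℝ} (hx : c ≤ x) (hx' : x < c') (hk : k < n)
    (hv : P.val ℓ k c c' ≠ 0) (h : g • P.ch k c c' = P.ch k' e e') : k' < 2 * n := by
  have ha := val_adm hv
  have hc0 := ha.2.2.2.1
  have hcl := ha.2.2.2.2.2
  obtain ⟨z, hz⟩ : ∃ z, z = ex g x := ⟨_, rfl⟩
  have hzr := ex_range g (hc0.trans hx) (hx'.trans_le hcl)
  rw [← hz] at hzr
  obtain ⟨j, j', b, b', f, f', hj, hb, hb', hw, hw', hh⟩ := h' z hzr.1 hzr.2
  have hbd := val_adm hw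
  have hb0 := hbd.2.2.2.1
  have hbl := hbd.2.2.2.2.2
  -- a point slightly to the right
  have hs : 0 < P.β ^ ((k : ℤ) - k') := zpow_pos P.β0 _
  obtain ⟨t, ht0, ht1, ht2⟩ : ∃ t : ℝ, 0 < t ∧ x + t < c' ∧ z + P.β ^ ((k : ℤ) - k') * t < b' := by
    refine ⟨min ((c' - x) / 2) ((b' - z) / (2 * P.β ^ ((k : ℤ) - k'))), ?_, ?_, ?_⟩
    · refine lt_min (by linarith) (div_pos (by linarith) (by positivity))
    · have := min_le_left ((c' - x) / 2) ((b' - z) / (2 * P.β ^ ((k : ℤ) - k')))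
      linarith
    · have h1 := min_le_right ((c' - x) / 2) ((b' - z) / (2 * P.β ^ ((k : ℤ) - k')))
      have h2 := mul_le_mul_of_nonneg_left h1 hs.le
      have h3 : P.β ^ ((k : ℤ) - k') * ((b' - z) / (2 * P.β ^ ((k : ℤ) - k'))) = (b' - z) / 2 := by
        field_simp
      rw [h3] at h2
      linarith
  have e1 := smul_point h hc0 hcl hx hx'
  have e2 := smul_point h hc0 hcl (y := x + t) (by linarith) ht1
  have e3 : ex g (x + t) = z + P.β ^ ((k : ℤ) - k') * t := by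
    rw [e2, hz, e1]
    ring
  have hzt : 0 ≤ P.β ^ ((k : ℤ) - k') * t := by positivity
  have e4 := smul_point hh hb0 hbl hb hb'
  have e5 := smul_point hh hb0 hbl (y := z + P.β ^ ((k : ℤ) - k') * t) (by linarith) ht2
  rw [hz, ex_inv] at e4
  rw [← e3, ex_inv] at e5
  have e6 : t = P.β ^ ((j : ℤ) - j') * (P.β ^ ((k : ℤ) - k') * t) := by
    rw [e3] at e5
    rw [← hz] at e4
    linear_combination e5 - e4
  have e7 : P.β ^ (((j : ℤ) - j') + ((k : ℤ) - k')) = P.β ^ (0 : ℤ) := by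
    rw [zpow_add₀ P.β0.ne', zpow_zero]
    have : (P.β ^ ((j : ℤ) - j') * P.β ^ ((k : ℤ) - k')) * t = 1 * t := by
      rw [one_mul, mul_assoc]
      exact e6.symm
    exact mul_right_cancel₀ ht0.ne' this
  have e8 := zpow_inj e7
  omega

/-- The elements that are good together with the inverse form a finite set. -/
theorem finite_good (hℓA : ℓ ∈ P.A) (n : ℕ) :
    {g : Equiv.Perm (Set.Ico (0 : ℝ) ℓ) | P.Good ℓ n g ∧ P.Good ℓ n g⁻¹}.Finite := by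
  classical
  have hT : {q : ℕ × ℝ × ℝ | q.1 < 2 * n ∧ P.val ℓ q.1 q.2.1 q.2.2 ≠ 0}.Finite := by
    have h1 : (⋃ k ∈ Finset.range (2 * n), (fun r : ℝ × ℝ => (k, r)) ''
        {r : ℝ × ℝ | P.val ℓ k r.1 r.2 ≠ 0}).Finite :=
      Set.Finite.biUnion (Finset.finite_toSet _) fun k _ => (level_finite hℓA k).image _
    refine h1.subset ?_
    rintro ⟨k, r⟩ ⟨hk, hr⟩
    refine Set.mem_biUnion (x := k) ?_ ⟨r, hr, rfl⟩
    exact Finset.mem_coe.2 (Finset.mem_range.2 hk)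
  let Φ : Equiv.Perm (Set.Ico (0 : ℝ) ℓ) → Set ((ℕ × ℝ × ℝ) × (ℕ × ℝ × ℝ)) := fun g =>
    {z | (z.1.1 < 2 * n ∧ P.val ℓ z.1.1 z.1.2.1 z.1.2.2 ≠ 0) ∧
      (z.2.1 < 2 * n ∧ P.val ℓ z.2.1 z.2.2.1 z.2.2.2 ≠ 0) ∧ g • P.chN z.1 = P.chN z.2}
  refine Set.Finite.of_finite_image (f := Φ) ?_ ?_
  · refine (hT.prod hT).finite_subsets.subset ?_
    rintro _ ⟨g, -, rfl⟩ z hz
    exact ⟨hz.1, hz.2.1⟩
  · rintro g ⟨hg, hg'⟩ h ⟨-, -⟩ he
    have hpt : ∀ x, 0 ≤ x → x < ℓ → ex g x = ex h x := by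
      intro x hx0 hx1
      obtain ⟨k, k', c, c', e, e', hk, hc, hc', hv, hv', hm⟩ := hg x hx0 hx1
      have hlev := level_bound hg' hc hc' hk hv hm
      have hmem : (((k, c, c'), (k', e, e')) : (ℕ × ℝ × ℝ) × (ℕ × ℝ × ℝ)) ∈ Φ g :=
        ⟨⟨by simp only; omega, hv⟩, ⟨hlev, hv'⟩, hm⟩
      rw [he] at hmem
      have hm' : h • P.ch k c c' = P.ch k' e e' := hmem.2.2
      have ha := val_adm hv
      rw [smul_point hm ha.2.2.2.1 ha.2.2.2.2.2 hc hc', smul_point hm' ha.2.2.2.1 ha.2.2.2.2.2 hc hc']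
    refine Equiv.ext fun x => ?_
    have h1 := hpt x.1 x.2.1 x.2.2
    rw [ex_mem g x.2, ex_mem h x.2] at h1
    exact Subtype.ext h1

/-- The inverse has the same energy. -/
theorem energy_inv (g : Equiv.Perm (Set.Ico (0 : ℝ) ℓ)) (p : ℝ) :
    ∑' F : Mp, ep p (P.SS ℓ (g • F) - P.SS ℓ F) =
      ∑' F : Mp, ep p (P.SS ℓ (g⁻¹ • F) - P.SS ℓ F) := by
  rw [← (MulAction.toPerm g : Equiv.Perm Mp).tsum_eq
    (fun F : Mp => ep p (P.SS ℓ (g⁻¹ • F) - P.SS ℓ F))]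
  refine tsum_congr fun F => ?_
  rw [MulAction.toPerm_apply, inv_smul_smul, ← ep_neg, neg_sub]

/-- The groups of piecewise affine permutations act properly on `ℓ^p`. -/
theorem acts (hℓ : 0 < ℓ) (hℓA : ℓ ∈ P.A) {p : ℝ≥0∞} [Fact (1 ≤ p)] (hp : p ≠ ∞)
    (hβρ : P.β * P.ρ ^ p.toReal < 1) (G : Subgroup (Equiv.Perm (Set.Ico (0 : ℝ) ℓ)))
    (hG : ∀ g ∈ G, PW (P.A : Set ℝ) P.β ℓ g) :
    ActsProperly G (lp (fun _ : Mp => ℝ) p) := by
  have hp1 : 1 ≤ p.toReal := by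
    have h := Fact.out (p := (1 ≤ p))
    have := ENNReal.toReal_mono hp h
    simpa using this
  obtain ⟨ρ, hρ⟩ := exists_action (Γ := G) (ι := Mp) hp (P.SS ℓ) (fun v =>
    energy_ne_top hℓ hℓA hp1 hβρ (hG v.1 v.2) (hG _ (G.inv_mem v.2)))
  refine ⟨ρ, fun ξ R => ?_⟩
  obtain ⟨n, hn⟩ := good_of_energy (P := P) hℓ hℓA hp1
    (R := ENNReal.ofReal ((R + 2 * ‖ξ‖) ^ p.toReal)) ENNReal.ofReal_ne_top
  refine Set.Finite.subset ((finite_good hℓA n).preimage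
    (Subtype.val_injective (p := fun v => v ∈ G)).injOn) ?_
  intro v hv
  have h3 : ‖ρ v 0‖ ≤ R + 2 * ‖ξ‖ := by
    have h4 : dist (ρ v 0) 0 ≤ dist (ρ v 0) (ρ v ξ) + dist (ρ v ξ) ξ + dist ξ 0 :=
      dist_triangle4 _ _ _ _
    rw [(ρ v).dist_eq, dist_zero_left, dist_zero_right, dist_zero_right] at h4
    have h5 : dist (ρ v ξ) ξ ≤ R := hv
    linarith
  have h4 : ∑' F : Mp, ep p.toReal (P.SS ℓ ((v.1)⁻¹ • F) - P.SS ℓ F) ≤
      ENNReal.ofReal ((R + 2 * ‖ξ‖) ^ p.toReal) := by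
    have h5 := hρ v
    have h6 : ∑' F : Mp, ep p.toReal (P.SS ℓ ((v.1)⁻¹ • F) - P.SS ℓ F) =
        ENNReal.ofReal (‖ρ v 0‖ ^ p.toReal) := h5
    rw [h6]
    refine ENNReal.ofReal_le_ofReal ?_
    exact Real.rpow_le_rpow (norm_nonneg _) h3 (by linarith)
  refine ⟨hn v.1 ?_, hn (v.1)⁻¹ h4⟩
  rw [energy_inv]
  exact h4

end Sys

end Pool.Agent.H54.Pisot
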