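import Pool.Agent.H54.Pisot.Base

/-!
# The tiles and their weights
-/

set_option autoImplicit false

open Set

namespace Pool.Agent.H54.Pisot

namespace Sys

variable (P : Sys) (ℓ : ℝ)

/-- The smallest window. -/
noncomputable def K1 : ℝ := ⌈P.β⌉₊ * P.N ℓ / (1 - P.ρ) + 1

/-- The windows for which no point between `c` and `c'` is present at level `k`. -/
noncomputable def T (k : ℤ) (c c' : ℝ) : ℝ :=
  sInf (insert (P.K1 ℓ + 1) {r : ℝ | ∃ x ∈ P.A, c < x ∧ x < c' ∧ r = P.N (P.β ^ k * x)})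

/-- The windows for which `c` and `c'` are present at level `k`. -/
noncomputable def O (k : ℤ) (c c' : ℝ) : ℝ :=
  max (P.K1 ℓ) (max (P.N (P.β ^ k * c)) (P.N (P.β ^ k * c')))

/-- Admissible triples. -/
def Adm (k : ℤ) (c c' : ℝ) : Prop :=
  0 ≤ k ∧ c ∈ P.A ∧ c' ∈ P.A ∧ 0 ≤ c ∧ c < c' ∧ c' ≤ ℓ

open Classical in
/-- The weight of a tile. -/
noncomputable def val (k : ℤ) (c c' : ℝ) : ℝ :=
  if P.Adm ℓ k c c' then max 0 (P.T ℓ k c c' - P.O ℓ k c c') else 0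

variable {P ℓ}

theorem K1_pos (hℓA : ℓ ∈ P.A) : 0 < P.K1 ℓ := by
  have hρ : 0 < 1 - P.ρ := by
    have := P.ρ1
    linarith
  have hNl := P.Nn ℓ hℓA
  unfold K1
  positivity

theorem K1_nonneg (hℓA : ℓ ∈ P.A) : 0 ≤ P.K1 ℓ := (K1_pos hℓA).le

theorem N_le_K1 (hℓA : ℓ ∈ P.A) : P.N ℓ ≤ P.K1 ℓ := by
  have hρ : 0 < 1 - P.ρ := by
    have := P.ρ1
    linarith
  have hNl := P.Nn ℓ hℓA
  have h0 : P.N ℓ ≤ ⌈P.β⌉₊ * P.N ℓ / (1 - P.ρ) := by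
    rw [le_div_iff₀ hρ]
    have h1 : (1 : ℝ) ≤ ⌈P.β⌉₊ := P.β1.le.trans (Nat.le_ceil _)
    have h2 := P.ρ0
    nlinarith
  unfold K1
  linarith

theorem T_bdd (k : ℤ) (c c' : ℝ) (hℓA : ℓ ∈ P.A) :
    ∀ r ∈ insert (P.K1 ℓ + 1) {r : ℝ | ∃ x ∈ P.A, c < x ∧ x < c' ∧ r = P.N (P.β ^ k * x)},
      0 ≤ r := by
  rintro r (rfl | ⟨x, hx, -, -, rfl⟩)
  · have := K1_nonneg (P := P) hℓA
    linarith
  · exact P.Nn _ (P.zpowA k hx)

theorem T_le (k : ℤ) (c c' : ℝ) (hℓA : ℓ ∈ P.A) : P.T ℓ k c c' ≤ P.K1 ℓ + 1 :=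
  csInf_le ⟨0, fun r hr => T_bdd k c c' hℓA r hr⟩ (Set.mem_insert _ _)

theorem T_le_N (k : ℤ) {c c' x : ℝ} (hℓA : ℓ ∈ P.A) (hx : x ∈ P.A) (h1 : c < x) (h2 : x < c') :
    P.T ℓ k c c' ≤ P.N (P.β ^ k * x) :=
  csInf_le ⟨0, fun r hr => T_bdd k c c' hℓA r hr⟩ (Set.mem_insert_of_mem _ ⟨x, hx, h1, h2, rfl⟩)

theorem le_T (k : ℤ) {c c' K : ℝ} (h1 : K ≤ P.K1 ℓ + 1)
    (h2 : ∀ x ∈ P.A, c < x → x < c' → K ≤ P.N (P.β ^ k * x)) : K ≤ P.T ℓ k c c' := by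
  refine le_csInf ⟨_, Set.mem_insert _ _⟩ ?_
  rintro r (rfl | ⟨x, hx, h3, h4, rfl⟩)
  · exact h1
  · exact h2 x hx h3 h4

theorem K1_le_O (k : ℤ) (c c' : ℝ) : P.K1 ℓ ≤ P.O ℓ k c c' := le_max_left _ _

theorem val_nonneg (k : ℤ) (c c' : ℝ) : 0 ≤ P.val ℓ k c c' := by
  unfold val
  split_ifs
  · exact le_max_left _ _
  · exact le_rfl

theorem val_le_one (k : ℤ) (c c' : ℝ) (hℓA : ℓ ∈ P.A) : P.val ℓ k c c' ≤ 1 := by
  unfold val
  split_ifs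
  · have h1 := T_le (P := P) k c c' hℓA
    have h2 := K1_le_O (P := P) (ℓ := ℓ) k c c'
    exact max_le zero_le_one (by linarith)
  · exact zero_le_one

theorem val_adm {k : ℤ} {c c' : ℝ} (h : P.val ℓ k c c' ≠ 0) : P.Adm ℓ k c c' := by
  by_contra hne
  exact h (by unfold val; rw [if_neg hne])

theorem val_lt {k : ℤ} {c c' : ℝ} (h : P.val ℓ k c c' ≠ 0) :
    P.O ℓ k c c' < P.T ℓ k c c' := by
  have h1 := val_adm h
  unfold val at h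
  rw [if_pos h1] at h
  by_contra hne
  push Not at hne
  exact h (max_eq_left (by linarith))

theorem val_eq {k : ℤ} {c c' : ℝ} (h : P.Adm ℓ k c c') :
    P.val ℓ k c c' = max 0 (P.T ℓ k c c' - P.O ℓ k c c') := by
  unfold val
  rw [if_pos h]

/-- The end points of a tile are small. -/
theorem val_end {k : ℤ} {c c' : ℝ} (hℓA : ℓ ∈ P.A) (h : P.val ℓ k c c' ≠ 0) :
    P.N (P.β ^ k * c) ≤ P.K1 ℓ + 1 ∧ P.N (P.β ^ k * c') ≤ P.K1 ℓ + 1 := by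
  have h1 := val_lt h
  have h2 := T_le (P := P) k c c' hℓA
  have h3 : P.N (P.β ^ k * c) ≤ P.O ℓ k c c' := (le_max_left _ _).trans (le_max_right _ _)
  have h4 : P.N (P.β ^ k * c') ≤ P.O ℓ k c c' := (le_max_right _ _).trans (le_max_right _ _)
  constructor <;> linarith

/-- A tile contains no small point. -/
theorem val_inner {k : ℤ} {c c' x : ℝ} (hℓA : ℓ ∈ P.A) (h : P.val ℓ k c c' ≠ 0) (hx : x ∈ P.A)
    (h1 : c < x) (h2 : x < c') : P.K1 ℓ < P.N (P.β ^ k * x) := by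
  have h3 := val_lt h
  have h4 := T_le_N (P := P) k hℓA hx h1 h2
  have h5 := K1_le_O (P := P) (ℓ := ℓ) k c c'
  linarith

/-- A tile of level `k` has length at most `ℓ β^{-k}`. -/
theorem val_length {k : ℤ} {c c' : ℝ} (hℓ : 0 < ℓ) (hℓA : ℓ ∈ P.A)
    (h : P.val ℓ k c c' ≠ 0) : P.β ^ k * (c' - c) ≤ ℓ := by
  by_contra hlt
  push Not at hlt
  have hβ : 0 < P.β ^ k := zpow_pos P.β0 k
  obtain ⟨-, hcA, hcA', hc0, -, -⟩ := val_adm h
  obtain ⟨z, hzA, -, hz1, hz2, hz3⟩ := P.dense hℓ hℓA ((P.β ^ k * c + ℓ + P.β ^ k * c') / 2)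
    (by
      have : 0 < P.β ^ k * c' := by
        have h1 : 0 ≤ P.β ^ k * c := by positivity
        nlinarith
      positivity)
  have hx : P.β ^ (-k) * z ∈ P.A := P.zpowA _ hzA
  have e : P.β ^ k * (P.β ^ (-k) * z) = z := by
    rw [← mul_assoc, ← zpow_add₀ P.β0.ne', add_neg_cancel, zpow_zero, one_mul]
  have h1 : c < P.β ^ (-k) * z := by
    refine lt_of_mul_lt_mul_left (a := P.β ^ k) ?_ hβ.le
    rw [e]
    nlinarith
  have h2 : P.β ^ (-k) * z < c' := by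
    refine lt_of_mul_lt_mul_left (a := P.β ^ k) ?_ hβ.le
    rw [e]
    nlinarith
  have h3 := val_inner hℓA h hx h1 h2
  rw [e] at h3
  unfold K1 at h3
  linarith

theorem T_aff {k a : ℤ} {c c' d : ℝ} (hℓA : ℓ ∈ P.A) (hd : d ∈ P.A) :
    P.T ℓ (k - a) (P.β ^ a * c + d) (P.β ^ a * c' + d) ≤
      P.T ℓ k c c' + P.N (P.β ^ (k - a) * d) := by
  have hη : 0 ≤ P.N (P.β ^ (k - a) * d) := P.Nn _ (P.zpowA _ hd)
  rw [← sub_le_iff_le_add]
  have ha : 0 < P.β ^ a := zpow_pos P.β0 a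
  refine le_T k ?_ ?_
  · have := T_le (P := P) (k - a) (P.β ^ a * c + d) (P.β ^ a * c' + d) hℓA
    linarith
  · intro x hx h1 h2
    have h3 := T_le_N (P := P) (k - a) (c := P.β ^ a * c + d) (c' := P.β ^ a * c' + d)
      (x := P.β ^ a * x + d) hℓA (P.A.add_mem (P.zpowA a hx) hd)
      (by nlinarith) (by nlinarith)
    have e : P.β ^ (k - a) * (P.β ^ a * x + d) = P.β ^ k * x + P.β ^ (k - a) * d := by
      rw [mul_add, ← mul_assoc, ← zpow_add₀ P.β0.ne', sub_add_cancel]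
    rw [e] at h3
    have h4 := P.Nadd _ (P.zpowA k hx) _ (P.zpowA (k - a) hd)
    linarith

theorem N_aff {k a : ℤ} {x d : ℝ} (hx : x ∈ P.A) (hd : d ∈ P.A) :
    P.N (P.β ^ (k - a) * (P.β ^ a * x + d)) ≤ P.N (P.β ^ k * x) + P.N (P.β ^ (k - a) * d) := by
  have e : P.β ^ (k - a) * (P.β ^ a * x + d) = P.β ^ k * x + P.β ^ (k - a) * d := by
    rw [mul_add, ← mul_assoc, ← zpow_add₀ P.β0.ne', sub_add_cancel]
  rw [e]
  exact P.Nadd _ (P.zpowA k hx) _ (P.zpowA (k - a) hd)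

theorem N_aff' {k a : ℤ} {x d : ℝ} (hx : x ∈ P.A) (hd : d ∈ P.A) :
    P.N (P.β ^ k * x) ≤ P.N (P.β ^ (k - a) * (P.β ^ a * x + d)) + P.N (P.β ^ (k - a) * d) := by
  have e : P.β ^ k * x = P.β ^ (k - a) * (P.β ^ a * x + d) - P.β ^ (k - a) * d := by
    rw [mul_add, ← mul_assoc, ← zpow_add₀ P.β0.ne', sub_add_cancel]
    ring
  rw [e]
  exact P.Nsub (P.zpowA _ (P.A.add_mem (P.zpowA a hx) hd)) (P.zpowA (k - a) hd)

theorem O_aff {k a : ℤ} {c c' d : ℝ} (hc : c ∈ P.A) (hc' : c' ∈ P.A) (hd : d ∈ P.A) :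
    P.O ℓ (k - a) (P.β ^ a * c + d) (P.β ^ a * c' + d) ≤
      P.O ℓ k c c' + P.N (P.β ^ (k - a) * d) := by
  have hη : 0 ≤ P.N (P.β ^ (k - a) * d) := P.Nn _ (P.zpowA _ hd)
  have h1 := K1_le_O (P := P) (ℓ := ℓ) k c c'
  have h3 : P.N (P.β ^ k * c) ≤ P.O ℓ k c c' := (le_max_left _ _).trans (le_max_right _ _)
  have h4 : P.N (P.β ^ k * c') ≤ P.O ℓ k c c' := (le_max_right _ _).trans (le_max_right _ _)
  have h5 := N_aff (P := P) (k := k) (a := a) hc hd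
  have h6 := N_aff (P := P) (k := k) (a := a) hc' hd
  exact max_le (by linarith) (max_le (by linarith) (by linarith))

theorem O_aff' {k a : ℤ} {c c' d : ℝ} (hc : c ∈ P.A) (hc' : c' ∈ P.A) (hd : d ∈ P.A) :
    P.O ℓ k c c' ≤
      P.O ℓ (k - a) (P.β ^ a * c + d) (P.β ^ a * c' + d) + P.N (P.β ^ (k - a) * d) := by
  have hη : 0 ≤ P.N (P.β ^ (k - a) * d) := P.Nn _ (P.zpowA _ hd)
  have h1 := K1_le_O (P := P) (ℓ := ℓ) (k - a) (P.β ^ a * c + d) (P.β ^ a * c' + d)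
  have h3 : P.N (P.β ^ (k - a) * (P.β ^ a * c + d)) ≤
      P.O ℓ (k - a) (P.β ^ a * c + d) (P.β ^ a * c' + d) :=
    (le_max_left _ _).trans (le_max_right _ _)
  have h4 : P.N (P.β ^ (k - a) * (P.β ^ a * c' + d)) ≤
      P.O ℓ (k - a) (P.β ^ a * c + d) (P.β ^ a * c' + d) :=
    (le_max_right _ _).trans (le_max_right _ _)
  have h5 := N_aff' (P := P) (k := k) (a := a) hc hd
  have h6 := N_aff' (P := P) (k := k) (a := a) hc' hd
  exact max_le (by linarith) (max_le (by linarith) (by linarith))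

theorem T_aff' {k a : ℤ} {c c' d : ℝ} (hℓA : ℓ ∈ P.A) (hd : d ∈ P.A) :
    P.T ℓ k c c' ≤ P.T ℓ (k - a) (P.β ^ a * c + d) (P.β ^ a * c' + d) +
      P.N (P.β ^ (k - a) * d) := by
  have hη : 0 ≤ P.N (P.β ^ (k - a) * d) := P.Nn _ (P.zpowA _ hd)
  rw [← sub_le_iff_le_add]
  have ha : 0 < P.β ^ a := zpow_pos P.β0 a
  refine le_T (k - a) ?_ ?_
  · have := T_le (P := P) k c c' hℓA
    linarith
  · intro y hy h1 h2
    obtain ⟨x, hx⟩ : ∃ x, x = P.β ^ (-a) * (y - d) := ⟨_, rfl⟩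
    have hxA : x ∈ P.A := by rw [hx]; exact P.zpowA _ (P.A.sub_mem hy hd)
    have hyx : y = P.β ^ a * x + d := by
      rw [hx, ← mul_assoc, ← zpow_add₀ P.β0.ne', add_neg_cancel, zpow_zero]
      ring
    rw [hyx] at h1 h2 ⊢
    have h3 := T_le_N (P := P) k (c := c) (c' := c') (x := x) hℓA hxA
      (by nlinarith) (by nlinarith)
    have h4 := N_aff' (P := P) (k := k) (a := a) hxA hd
    linarith

/-- Affine maps change the weights only a little. -/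
theorem val_aff {k a : ℤ} {c c' d : ℝ} (hℓA : ℓ ∈ P.A) (h : P.Adm ℓ k c c') (hd : d ∈ P.A)
    (h' : P.Adm ℓ (k - a) (P.β ^ a * c + d) (P.β ^ a * c' + d)) :
    |P.val ℓ (k - a) (P.β ^ a * c + d) (P.β ^ a * c' + d) - P.val ℓ k c c'| ≤
      2 * P.N (P.β ^ (k - a) * d) := by
  have hη : 0 ≤ P.N (P.β ^ (k - a) * d) := P.Nn _ (P.zpowA _ hd)
  rw [val_eq h, val_eq h']
  have t1 := T_aff (P := P) (ℓ := ℓ) (k := k) (a := a) (c := c) (c' := c') hℓA hd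
  have t2 := T_aff' (P := P) (ℓ := ℓ) (k := k) (a := a) (c := c) (c' := c') hℓA hd
  have o1 := O_aff (P := P) (ℓ := ℓ) (k := k) (a := a) h.2.1 h.2.2.1 hd
  have o2 := O_aff' (P := P) (ℓ := ℓ) (k := k) (a := a) h.2.1 h.2.2.1 hd
  refine (abs_max_sub_max_le_max _ _ _ _).trans ?_
  rw [sub_zero, abs_zero]
  refine max_le (by linarith) ?_
  rw [abs_le]
  constructor <;> linarith

end Sys

end Pool.Agent.H54.Pisot
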